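import Mathlib

/-! Definitions for the height bound for Mordell curves. -/

namespace Pool.Helper99.BK

open NumberField

/-- pairs `(k, u)` with `π ^ k u` of size at most `ρ` -/
def TT (K : Type) [Field K] [NumberField K] (π : 𝓞 K) (A ρ : ℝ) : Set (ℤ × (𝓞 K)ˣ) :=
  {x | |(x.1 : ℝ)| * A ≤ ρ ∧ ∀ σ : K →+* ℂ,
    |Real.log ‖σ ((x.2 : 𝓞 K) : K)‖ + (x.1 : ℝ) * Real.log ‖σ (π : K)‖| ≤ ρ}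

/-- ideals of norm at most `t` -/
def ID (K : Type) [Field K] [NumberField K] (t : ℝ) : Set (Ideal (𝓞 K)) :=
  {J | J ≠ ⊥ ∧ (Ideal.absNorm J : ℝ) ≤ t}

/-- `π ^ p₀ ε₁ ^ p₁ ε₂ ^ p₂` -/
noncomputable def gel {K : Type} [Field K] [NumberField K] (π : 𝓞 K) (ε1 ε2 : (𝓞 K)ˣ)
    (p : Fin 3 → ℤ) : K :=
  (π : K) ^ (p 0) * ((ε1 : 𝓞 K) : K) ^ (p 1) * ((ε2 : 𝓞 K) : K) ^ (p 2)

/-- the size -/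
noncomputable def nrm {K : Type} [Field K] [NumberField K] (σ : Fin 3 → (K →+* ℂ)) (π : 𝓞 K)
    (ε1 ε2 : (𝓞 K)ˣ) (A : ℝ) (lam : Fin 3 → ℂ) (p : Fin 3 → ℤ) : ℝ :=
  4 * (∑ i, |Real.log ‖σ i (gel π ε1 ε2 p)‖|) + A * |(p 0 : ℝ)| + ‖∑ i, ((p i : ℤ) : ℂ) * lam i‖

/-- the data to which the main theorem on linear forms applies -/
structure Good (K : Type) [Field K] [NumberField K] (σ : Fin 3 → (K →+* ℂ)) (π : 𝓞 K)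
    (ε1 ε2 : (𝓞 K)ˣ) (θ : ℂ) (lam : Fin 3 → ℂ) (A h S ν c0 C3 : ℝ) : Prop where
  e0 : Complex.exp (lam 0) = (θ * (σ 1 (π : K) / σ 2 (π : K))) ^ 2
  e1 : Complex.exp (lam 1) = (σ 1 ((ε1 : 𝓞 K) : K) / σ 2 ((ε1 : 𝓞 K) : K)) ^ 2
  e2 : Complex.exp (lam 2) = (σ 1 ((ε2 : 𝓞 K) : K) / σ 2 ((ε2 : 𝓞 K) : K)) ^ 2
  P1 : ∀ p, p ≠ 0 → c0 ≤ nrm σ π ε1 ε2 A lam p
  P2 : ∀ p i, |((p i : ℤ) : ℝ)| ≤ C3 * (1 + S) * nrm σ π ε1 ε2 A lam p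
  P3 : ∀ ρ, C3 * (A + h) ≤ ρ → ρ ^ 3 ≤ C3 * ν * A * h ^ 2 *
    ({p : Fin 3 → ℤ | nrm σ π ε1 ε2 A lam p ≤ ρ}.ncard : ℝ)
  P4 : ∀ ρ, 0 ≤ ρ → ({p : Fin 3 → ℤ | nrm σ π ε1 ε2 A lam p ≤ ρ ∧
    (θ ^ (p 0) * (σ 1 (gel π ε1 ε2 p) / σ 2 (gel π ε1 ε2 p))) ^ 2 = 1}.ncard : ℝ) ≤
      4 * (ρ + 1) ^ 2

/-- discriminant of a binary cubic form -/
def dsc (a b c e : ℤ) : ℤ :=
  b ^ 2 * c ^ 2 - 4 * a * c ^ 3 - 4 * b ^ 3 * e - 27 * a ^ 2 * e ^ 2 + 18 * a * b * c * e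

end Pool.Helper99.BK
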