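import Mathlib
import Pool.Agent.Helper99.BK.Defs

/-! Statements of the modules (MP_9d7cd1_nt, bound `log |x| ≤ C |d| ^ (1/2 + ε)`). -/

set_option autoImplicit false

namespace Pool.Helper99.BK

open NumberField

/-- translation of polynomials -/
noncomputable def tr (a : Fin 2 → ℂ) (F : MvPolynomial (Fin 2) ℂ) : MvPolynomial (Fin 2) ℂ :=
  MvPolynomial.bind₁ (fun i => MvPolynomial.X i + MvPolynomial.C (a i)) F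

/-! ## A. Interpolation determinants -/

def ST_AN1 : Prop := ∀ (ι : Type) [Fintype ι] [DecidableEq ι] (M : Matrix ι ι ℂ), M.det ≠ 0 →
  ∀ (I : Finset ι) (W : Submodule ℂ (ι → ℂ)), (∀ j ∈ I, (fun p => M p j) ∈ W) →
    I.card ≤ Module.finrank ℂ W

def ST_AN2 : Prop := ∀ (ι : Type) [DecidableEq ι] (I : Finset ι) (t : ι → ℕ),
  ((∀ s, (I.filter (fun j => t j = s)).card ≤ s + 1) →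
    (I.card : ℝ) * (Real.sqrt I.card - 1) / 2 ≤ ∑ j ∈ I, (t j : ℝ)) ∧
  ((∀ s, (I.filter (fun j => t j = s)).card ≤ 1) →
    (I.card : ℝ) * ((I.card : ℝ) - 1) / 2 ≤ ∑ j ∈ I, (t j : ℝ))

def ST_AN3 : Prop := ∀ (ι : Type) [Fintype ι] [DecidableEq ι] (I : Finset ι) (T : ℕ)
    (W : ℕ → Submodule ℂ (ι → ℂ)),
    (∀ t : ι → ℕ, (∀ s, (I.filter (fun j => t j = s)).card ≤ Module.finrank ℂ (W s)) →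
      T ≤ ∑ j ∈ I, t j) →
    ∀ (a : ι → ℕ → ι → ℂ), (∀ j ∈ I, ∀ s < T, a j s ∈ W s) →
    ∀ (r : ι → ι → ℂ → ℂ), (∀ j p, Differentiable ℂ (r j p)) → ∀ (A : Matrix ι ι ℂ),
    ∃ g : ℂ → ℂ, Differentiable ℂ g ∧ ∀ w : ℂ,
      (Matrix.of (fun p j => if j ∈ I then (∑ s ∈ Finset.range T, w ^ s * a j s p) + w ^ T * r j p w
        else A p j)).det = w ^ T * g w

def ST_AN4 : Prop := ∀ (T : ℕ), ∃ r : ℂ → ℂ, Differentiable ℂ r ∧ ∀ z : ℂ,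
    Complex.exp z = (∑ m ∈ Finset.range T, z ^ m / (m.factorial : ℂ)) + z ^ T * r z

def ST_AN5 : Prop := ∀ (T : ℕ) (f g : ℂ → ℂ), Differentiable ℂ g → (∀ w, f w = w ^ T * g w) →
    ∀ M : ℝ, (∀ w : ℂ, ‖w‖ = Real.exp 1 → ‖f w‖ ≤ M) → ‖f 1‖ ≤ Real.exp (-(T : ℝ)) * M

def ST_AN6 : Prop := ∀ (ι : Type) [Fintype ι] [DecidableEq ι] (M : Matrix ι ι ℂ) (B : ℝ),
    (∀ p j, ‖M p j‖ ≤ B) → ‖M.det‖ ≤ ((Fintype.card ι).factorial : ℝ) * B ^ (Fintype.card ι)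

def ST_AN7 : Prop := ∀ (K Lc : ℕ) (I : Finset (Fin K × Fin K × Fin Lc))
    (z1 z2 : Fin K × Fin K × Fin Lc → ℂ) (l1 l2 : ℂ)
    (A : Matrix (Fin K × Fin K × Fin Lc) (Fin K × Fin K × Fin Lc) ℂ) (Z C0 B : ℝ),
    1 ≤ Z → 0 ≤ C0 → (∀ p, ‖z1 p‖ ≤ Z) → (∀ p, ‖z2 p‖ ≤ Z) →
    (∀ p, ‖z1 p * l1 + z2 p * l2‖ ≤ C0) →
    (3 * Z) ^ (2 * K) * Real.exp (3 * Lc * C0) ≤ B → (∀ p j, ‖A p j‖ ≤ B) →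
    ‖(Matrix.of (fun p j : Fin K × Fin K × Fin Lc => if j ∈ I then
        z1 p ^ (j.1 : ℕ) * z2 p ^ (j.2.1 : ℕ) *
          Complex.exp (((j.2.2 : ℕ) : ℂ) * (z1 p * l1 + z2 p * l2)) else A p j)).det‖ ≤
      Real.exp (1 - (I.card : ℝ) * (Real.sqrt I.card - 1) / 2) *
        (((K * K * Lc).factorial : ℝ) * B ^ (K * K * Lc))

def ST_AN8 : Prop := ∀ (K Lc : ℕ), 16 ≤ K * K * Lc → ∀ (z1 z2 κ : Fin K × Fin K × Fin Lc → ℂ)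
    (l1 l2 l0 : ℂ) (Z C0 : ℝ), 1 ≤ Z → 0 ≤ C0 → (∀ p, ‖z1 p‖ ≤ Z) →
    (∀ p, ‖z2 p‖ ≤ Z) → (∀ p, ‖κ p‖ ≤ Z) → (∀ p, ‖z1 p * l1 + z2 p * l2‖ ≤ C0) →
    2 * Lc * Z * ‖l0‖ ≤ Real.exp (-Real.sqrt ((K * K * Lc : ℕ) : ℝ)) →
    ‖(Matrix.of (fun p j : Fin K × Fin K × Fin Lc => z1 p ^ (j.1 : ℕ) * z2 p ^ (j.2.1 : ℕ) *
          Complex.exp (((j.2.2 : ℕ) : ℂ) * (κ p * l0 + z1 p * l1 + z2 p * l2)))).det‖ ≤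
      2 ^ (K * K * Lc) * (((K * K * Lc).factorial : ℝ) *
        ((3 * Z) ^ (2 * K) * Real.exp (3 * Lc * C0)) ^ (K * K * Lc)) *
        Real.exp (1 - ((K * K * Lc : ℕ) : ℝ) * Real.sqrt ((K * K * Lc : ℕ) : ℝ) / 12)

def ST_AN9 : Prop := ∀ (K Lc : ℕ) (I : Finset (Fin K × Fin Lc)) (z1 : Fin K × Fin Lc → ℂ)
    (l1 : ℂ) (A : Matrix (Fin K × Fin Lc) (Fin K × Fin Lc) ℂ) (Z C0 B : ℝ),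
    1 ≤ Z → 0 ≤ C0 → (∀ p, ‖z1 p‖ ≤ Z) → (∀ p, ‖z1 p * l1‖ ≤ C0) →
    (3 * Z) ^ K * Real.exp (3 * Lc * C0) ≤ B → (∀ p j, ‖A p j‖ ≤ B) →
    ‖(Matrix.of (fun p j : Fin K × Fin Lc => if j ∈ I then
        z1 p ^ (j.1 : ℕ) * Complex.exp (((j.2 : ℕ) : ℂ) * (z1 p * l1)) else A p j)).det‖ ≤
      Real.exp (1 - (I.card : ℝ) * ((I.card : ℝ) - 1) / 2) *
        (((K * Lc).factorial : ℝ) * B ^ (K * Lc))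

def ST_AN10 : Prop := ∀ (K Lc : ℕ), 4 ≤ K * Lc → ∀ (z1 κ : Fin K × Fin Lc → ℂ)
    (l1 l0 : ℂ) (Z C0 : ℝ), 1 ≤ Z → 0 ≤ C0 → (∀ p, ‖z1 p‖ ≤ Z) →
    (∀ p, ‖κ p‖ ≤ Z) → (∀ p, ‖z1 p * l1‖ ≤ C0) →
    2 * Lc * Z * ‖l0‖ ≤ Real.exp (-((K * Lc : ℕ) : ℝ)) →
    ‖(Matrix.of (fun p j : Fin K × Fin Lc => z1 p ^ (j.1 : ℕ) *
          Complex.exp (((j.2 : ℕ) : ℂ) * (κ p * l0 + z1 p * l1)))).det‖ ≤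
      2 ^ (K * Lc) * (((K * Lc).factorial : ℝ) *
        ((3 * Z) ^ K * Real.exp (3 * Lc * C0)) ^ (K * Lc)) *
        Real.exp (1 - ((K * Lc : ℕ) : ℝ) ^ 2 / 16)

/-! ## B. Arithmetic -/

def ST_LIOU : Prop := ∀ (L : Type) [Field L] [NumberField L] (φ : L →+* ℂ) (z : L), z ≠ 0 →
    ∀ q : ℕ, 0 < q → IsIntegral ℤ ((q : L) * z) → ∀ M : ℝ, 1 ≤ M → (∀ τ : L →+* ℂ, ‖τ z‖ ≤ M) →
    1 ≤ ‖φ z‖ * ((q : ℝ) ^ (Module.finrank ℚ L) * M ^ (Module.finrank ℚ L - 1))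

def ST_AR : Prop := ∀ (L : Type) [Field L] [NumberField L] (φ : L →+* ℂ) (ι : Type) [Fintype ι]
    [DecidableEq ι] (M : Matrix ι ι L), M.det ≠ 0 → ∀ q : ι → ℕ, (∀ p, 0 < q p) →
    (∀ p j, IsIntegral ℤ ((q p : L) * M p j)) → ∀ Q B : ℝ, 1 ≤ B →
    (∀ (τ : L →+* ℂ) (p j : ι), ‖τ (M p j)‖ ≤ B) → (∀ p, (q p : ℝ) ≤ Q) →
    1 ≤ ‖φ M.det‖ * (((Q ^ (Fintype.card ι)) ^ (Module.finrank ℚ L)) *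
      (((Fintype.card ι).factorial : ℝ) * B ^ (Fintype.card ι)) ^ (Module.finrank ℚ L - 1))

def ST_MINOR : Prop := ∀ (F : Type) [Field F] (R ι : Type) [Fintype ι] [DecidableEq ι]
    (A : R → ι → F), (∀ x : ι → F, (∀ r, ∑ j, A r j * x j = 0) → x = 0) →
    ∃ r : ι → R, (Matrix.of (fun i j => A (r i) j)).det ≠ 0

/-! ## C. Zero estimates -/

def ST_ZE1 : Prop := ∀ (G : Type) [AddCommGroup G] [DecidableEq G] (ζ : G →+ ℂ) (η : G → ℂ),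
    (∀ p, η p ≠ 0) → (∀ p q, η (p + q) = η p * η q) → ∀ (K Lc : ℕ)
    (x : Fin K × Fin Lc → ℂ), x ≠ 0 → ∀ B1 B2 : Finset G,
    (∀ p ∈ B1, ∀ q ∈ B2,
      ∑ j : Fin K × Fin Lc, x j * (ζ (p + q) ^ (j.1 : ℕ) * η (p + q) ^ (j.2 : ℕ)) = 0) →
    Lc ≤ (B1.image η).card → (B2.image ζ).card ≤ K * Lc

def ST_ZE2a : Prop := ∀ (G : Type) [AddCommGroup G] [DecidableEq G] (ζ1 ζ2 : G →+ ℂ) (η : G → ℂ),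
    (∀ p, η p ≠ 0) → (∀ p q, η (p + q) = η p * η q) → ∀ (K Lc : ℕ)
    (x : Fin K × Fin K × Fin Lc → ℂ), x ≠ 0 → ∀ B1 B : Finset G,
    (∀ p ∈ B1, ∀ q ∈ B,
      ∑ j : Fin K × Fin K × Fin Lc, x j * (ζ1 (p + q) ^ (j.1 : ℕ) * ζ2 (p + q) ^ (j.2.1 : ℕ) *
        η (p + q) ^ (j.2.2 : ℕ)) = 0) →
    Lc ≤ (B1.image η).card →
    ∃ Q : MvPolynomial (Fin 2) ℂ, Q ≠ 0 ∧ Q.totalDegree ≤ 2 * K * Lc ∧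
      ∀ q ∈ B, MvPolynomial.eval ![ζ1 q, ζ2 q] Q = 0

def ST_DIM : Prop := ∀ m : ℕ,
    Module.Finite ℂ (MvPolynomial.restrictTotalDegree (Fin 2) ℂ m) ∧
    2 * Module.finrank ℂ (MvPolynomial.restrictTotalDegree (Fin 2) ℂ m) = (m + 1) * (m + 2)

def ST_SEP : Prop := ∀ (S : Finset (Fin 2 → ℂ)), ∀ s ∈ S, ∃ P : MvPolynomial (Fin 2) ℂ,
    P.totalDegree ≤ S.card ∧ MvPolynomial.eval s P = 1 ∧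
    ∀ s' ∈ S, s' ≠ s → MvPolynomial.eval s' P = 0

def ST_BEZ : Prop := ∀ (F Q : MvPolynomial (Fin 2) ℂ), Irreducible F → ¬ F ∣ Q →
    ∀ S : Finset (Fin 2 → ℂ),
    (∀ s ∈ S, MvPolynomial.eval s F = 0 ∧ MvPolynomial.eval s Q = 0) →
    S.card ≤ F.totalDegree * Q.totalDegree

def ST_TRB : Prop :=
    (∀ (a b : Fin 2 → ℂ) (F : MvPolynomial (Fin 2) ℂ),
      MvPolynomial.eval b (tr a F) = MvPolynomial.eval (a + b) F) ∧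
    (∀ (a b : Fin 2 → ℂ) (F : MvPolynomial (Fin 2) ℂ), tr a (tr b F) = tr (a + b) F) ∧
    (∀ F : MvPolynomial (Fin 2) ℂ, tr 0 F = F) ∧
    (∀ (a : Fin 2 → ℂ) (F G : MvPolynomial (Fin 2) ℂ), tr a (F * G) = tr a F * tr a G) ∧
    (∀ (a : Fin 2 → ℂ) (F : MvPolynomial (Fin 2) ℂ), (tr a F).totalDegree = F.totalDegree) ∧
    (∀ (a : Fin 2 → ℂ) (F : MvPolynomial (Fin 2) ℂ), Irreducible F → Irreducible (tr a F)) ∧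
    (∀ (a : Fin 2 → ℂ) (F : MvPolynomial (Fin 2) ℂ) (c : ℂ), F ≠ 0 →
      tr a F = MvPolynomial.C c * F → c = 1)

def ST_TRL : Prop := ∀ F : MvPolynomial (Fin 2) ℂ, Irreducible F → ∃ μ : Fin 2 → ℂ, μ ≠ 0 ∧
    ∀ a b : Fin 2 → ℂ, Associated (tr a F) (tr b F) →
      μ 0 * a 0 + μ 1 * a 1 = μ 0 * b 0 + μ 1 * b 1

def ST_ZE2c : Prop := ∀ (Q : MvPolynomial (Fin 2) ℂ), Q ≠ 0 → ∀ δ : ℕ, Q.totalDegree ≤ δ →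
    ∀ A B : Finset (Fin 2 → ℂ), (∀ a ∈ A, ∀ b ∈ B, MvPolynomial.eval (a + b) Q = 0) →
    B.card ≤ δ ^ 2 ∨ ∃ μ : Fin 2 → ℂ, μ ≠ 0 ∧
      (A.image (fun a => μ 0 * a 0 + μ 1 * a 1)).card ≤ δ

def ST_ZE2 : Prop := ∀ (G : Type) [AddCommGroup G] [DecidableEq G] (ζ1 ζ2 : G →+ ℂ) (η : G → ℂ),
    (∀ p, η p ≠ 0) → (∀ p q, η (p + q) = η p * η q) → ∀ (K Lc : ℕ)
    (x : Fin K × Fin K × Fin Lc → ℂ), x ≠ 0 → ∀ B1 B2 B3 : Finset G,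
    (∀ p ∈ B1, ∀ q ∈ B2, ∀ r ∈ B3,
      ∑ j : Fin K × Fin K × Fin Lc, x j * (ζ1 (p + (q + r)) ^ (j.1 : ℕ) *
        ζ2 (p + (q + r)) ^ (j.2.1 : ℕ) * η (p + (q + r)) ^ (j.2.2 : ℕ)) = 0) →
    Lc ≤ (B1.image η).card →
    (∀ q ∈ B3, ∀ r ∈ B3, ζ1 q = ζ1 r → ζ2 q = ζ2 r → q = r) →
    B3.card ≤ (2 * K * Lc) ^ 2 ∨ ∃ μ1 μ2 : ℂ, ¬ (μ1 = 0 ∧ μ2 = 0) ∧
      (B2.image (fun a => μ1 * ζ1 a + μ2 * ζ2 a)).card ≤ 2 * K * Lc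

/-! ## D. Linear forms in logarithms -/

def ST_M2 : Prop := ∀ (D : ℕ), ∃ C : ℝ, 1 ≤ C ∧ ∀ (L : Type) [Field L] [NumberField L],
    Module.finrank ℚ L ≤ D → ∀ (φ : L →+* ℂ) (γ : Fin 2 → L) (lam : Fin 2 → ℂ)
      (S : Finset (Fin 2 → ℤ)) (U ℓ Z : ℝ), 1 ≤ U → 1 ≤ ℓ → 1 ≤ Z → Real.log Z ≤ ℓ →
      Real.log U ≤ ℓ → (∀ i, γ i ≠ 0) → (∀ i, Complex.exp (lam i) = φ (γ i)) →
      (∀ p ∈ S, ∀ q ∈ S, ‖∑ i, (((p + q) i : ℤ) : ℂ) * lam i‖ ≤ U) →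
      (∀ p ∈ S, ∀ q ∈ S, ∀ τ : L →+* ℂ, ‖τ (∏ i, γ i ^ ((p + q) i))‖ ≤ Real.exp U) →
      (∀ p ∈ S, ∀ q ∈ S, ∃ n : ℕ, 0 < n ∧ (n : ℝ) ≤ Real.exp U ∧
        IsIntegral ℤ ((n : L) * ∏ i, γ i ^ ((p + q) i))) →
      (∀ p ∈ S, ∀ q ∈ S, ∀ i, |(((p + q) i : ℤ) : ℝ)| ≤ Z) →
      (∀ p ∈ S, ∀ q ∈ S, p 1 = q 1 → p = q) →
      C * U * ℓ ≤ S.card →
      C * ℓ ≤ (S.image (fun p : Fin 2 → ℤ => φ (∏ i, γ i ^ (p i)))).card →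
      Real.exp (-(C * U * ℓ)) ≤ ‖lam 0‖

def ST_M3 : Prop := ∀ (D : ℕ), ∃ C : ℝ, 1 ≤ C ∧ ∀ (L : Type) [Field L] [NumberField L],
    Module.finrank ℚ L ≤ D → ∀ (φ : L →+* ℂ) (γ : Fin 3 → L) (lam : Fin 3 → ℂ)
      (S : Finset (Fin 3 → ℤ)) (U ℓ Z : ℝ), 1 ≤ U → 1 ≤ ℓ → 1 ≤ Z → Real.log Z ≤ ℓ →
      Real.log U ≤ ℓ → (∀ i, γ i ≠ 0) → (∀ i, Complex.exp (lam i) = φ (γ i)) →
      (∀ p ∈ S, ∀ q ∈ S, ∀ r ∈ S, ‖∑ i, (((p + (q + r)) i : ℤ) : ℂ) * lam i‖ ≤ U) →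
      (∀ p ∈ S, ∀ q ∈ S, ∀ r ∈ S, ∀ τ : L →+* ℂ,
        ‖τ (∏ i, γ i ^ ((p + (q + r)) i))‖ ≤ Real.exp U) →
      (∀ p ∈ S, ∀ q ∈ S, ∀ r ∈ S, ∃ n : ℕ, 0 < n ∧ (n : ℝ) ≤ Real.exp U ∧
        IsIntegral ℤ ((n : L) * ∏ i, γ i ^ ((p + (q + r)) i))) →
      (∀ p ∈ S, ∀ q ∈ S, ∀ r ∈ S, ∀ i, |(((p + (q + r)) i : ℤ) : ℝ)| ≤ Z) →
      (∀ p ∈ S, ∀ q ∈ S, p 1 = q 1 → p 2 = q 2 → p = q) →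
      C * U ^ 2 * ℓ ^ 6 ≤ S.card →
      C * ℓ ^ 2 ≤ (S.image (fun p : Fin 3 → ℤ => φ (∏ i, γ i ^ (p i)))).card →
      Real.exp (-(C * U * ℓ ^ 2)) ≤ ‖lam 0‖ ∨
      ∃ μ1 μ2 : ℂ, ¬ (μ1 = 0 ∧ μ2 = 0) ∧
        ((S.image (fun p : Fin 3 → ℤ => μ1 * ((p 1 : ℤ) : ℂ) + μ2 * ((p 2 : ℤ) : ℂ))).card : ℝ) ≤
          C * U * ℓ ^ 3

/-- the hypotheses on the size function -/
structure Sz (L : Type) [Field L] [NumberField L] (φ : L →+* ℂ) (γ : Fin 3 → L) (lam : Fin 3 → ℂ)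
    (nrm : (Fin 3 → ℤ) → ℝ) (c0 U Z : ℝ) : Prop where
  ne : ∀ i, γ i ≠ 0
  ex : ∀ i, Complex.exp (lam i) = φ (γ i)
  add : ∀ p q, nrm (p + q) ≤ nrm p + nrm q
  smul : ∀ (n : ℤ) p, nrm (n • p) = |(n : ℝ)| * nrm p
  low : ∀ p, p ≠ 0 → c0 ≤ nrm p
  log : ∀ p, ‖∑ i, ((p i : ℤ) : ℂ) * lam i‖ ≤ nrm p
  conj : ∀ p (τ : L →+* ℂ), ‖τ (∏ i, γ i ^ (p i))‖ ≤ Real.exp (nrm p)
  den : ∀ p, ∃ n : ℕ, 0 < n ∧ (n : ℝ) ≤ Real.exp (nrm p) ∧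
    IsIntegral ℤ ((n : L) * ∏ i, γ i ^ (p i))
  coo : ∀ p, nrm p ≤ U → ∀ i, |((p i : ℤ) : ℝ)| ≤ Z
  tor : ∀ k : ℤ, k ≠ 0 → γ 0 ^ k ≠ 1
  big : U < nrm ![1, 0, 0]

def ST_DEG : Prop := ∀ (D : ℕ) (c0 : ℝ), 0 < c0 → ∃ C : ℝ, 1 ≤ C ∧
    ∀ (L : Type) [Field L] [NumberField L], Module.finrank ℚ L ≤ D →
      ∀ (φ : L →+* ℂ) (γ : Fin 3 → L) (lam : Fin 3 → ℂ) (nrm : (Fin 3 → ℤ) → ℝ) (ℓ U Z : ℝ),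
      1 ≤ U → 1 ≤ ℓ → 1 ≤ Z → Real.log U ≤ ℓ → Real.log Z ≤ ℓ → Sz L φ γ lam nrm c0 U Z →
      ∀ (T : Finset (Fin 3 → ℤ)) (μ1 μ2 : ℂ), ¬ (μ1 = 0 ∧ μ2 = 0) →
      (∀ p ∈ T, nrm p ≤ U / 3) →
      (∀ p ∈ T, μ1 * ((p 1 : ℤ) : ℂ) + μ2 * ((p 2 : ℤ) : ℂ) = 0) → C * U * ℓ ≤ T.card →
      Real.exp (-(C * U * ℓ)) ≤ ‖lam 0‖

def ST_MAIN : Prop := ∀ (D : ℕ) (c0 : ℝ), 0 < c0 → ∃ C : ℝ, 1 ≤ C ∧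
    ∀ (L : Type) [Field L] [NumberField L], Module.finrank ℚ L ≤ D →
      ∀ (φ : L →+* ℂ) (γ : Fin 3 → L) (lam : Fin 3 → ℂ) (nrm : (Fin 3 → ℤ) → ℝ) (X ℓ U Z : ℝ),
      1 ≤ X → 1 ≤ ℓ → 1 ≤ Z → U = C * X * ℓ ^ 6 → Real.log X ≤ ℓ → Real.log Z ≤ ℓ →
      Sz L φ γ lam nrm c0 U Z →
      (U / 6) ^ 3 ≤ X * ({p : Fin 3 → ℤ | nrm p ≤ U / 6}.ncard : ℝ) →
      ({p : Fin 3 → ℤ | nrm p ≤ U ∧ ∏ i, γ i ^ (p i) = 1}.ncard : ℝ) ≤ 4 * (U + 1) ^ 2 →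
      Real.exp (-(C * U * ℓ ^ 2)) ≤ ‖lam 0‖

/-! ## E. Ideals and units of cubic fields -/

def ST_MINK : Prop := ∀ (K : Type) [Field K] [NumberField K] (f : InfinitePlace K → ℝ),
    (∀ w, 0 < f w) →
    Real.sqrt |(NumberField.discr K : ℝ)| < ∏ w, f w ^ (InfinitePlace.mult w) →
    ∃ c : 𝓞 K, c ≠ 0 ∧ ∀ w : InfinitePlace K, w (c : K) < f w

def ST_PHa : Prop := ∀ (K : Type) [Field K] [NumberField K], Module.finrank ℚ K = 3 →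
    ∀ h : ℝ, 1 ≤ h → Real.log |(NumberField.discr K : ℝ)| ≤ h →
    ∀ t : InfinitePlace K → ℝ, ∑ w, (InfinitePlace.mult w : ℝ) * t w = 0 →
    ∃ c : 𝓞 K, c ≠ 0 ∧ (∀ w : InfinitePlace K, |Real.log (w (c : K)) - t w| ≤ 3 * h) ∧
      Ideal.span {c} ∈ ID K (2 * Real.sqrt |(NumberField.discr K : ℝ)|)

def ST_PH : Prop := ∃ C : ℝ, 1 ≤ C ∧ ∀ (K : Type) [Field K] [NumberField K],
    Module.finrank ℚ K = 3 →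
    ∀ π : 𝓞 K, π ≠ 0 → ∀ A h ν ρ : ℝ, 1 ≤ h → Real.log |(NumberField.discr K : ℝ)| ≤ h → 1 ≤ A →
      Real.log |(Algebra.norm ℤ π : ℝ)| ≤ A →
      ((ID K (2 * Real.sqrt |(NumberField.discr K : ℝ)|)).ncard : ℝ) ≤ ν → C * (A + h) ≤ ρ →
      ρ ^ (Fintype.card (InfinitePlace K)) ≤
        C * ν * A * h ^ (Fintype.card (InfinitePlace K) - 1) * ((TT K π A ρ).ncard : ℝ)

def ST_TTF : Prop := ∀ (K : Type) [Field K] [NumberField K] (π : 𝓞 K), π ≠ 0 → ∀ A ρ : ℝ,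
    0 < A → (TT K π A ρ).Finite

def ST_IDF : Prop := ∀ (K : Type) [Field K] [NumberField K] (t : ℝ), (ID K t).Finite

def ST_DV1 : Prop := ∀ (K : Type) [Field K] [NumberField K] (I J : Ideal (𝓞 K)), I ≠ ⊥ → J ≠ ⊥ →
    {M : Ideal (𝓞 K) | M ∣ I}.Finite ∧
    {M : Ideal (𝓞 K) | M ∣ I * J}.ncard ≤ {M : Ideal (𝓞 K) | M ∣ I}.ncard *
      {M : Ideal (𝓞 K) | M ∣ J}.ncard ∧
    (Prime I → ∀ v : ℕ, {M : Ideal (𝓞 K) | M ∣ I ^ v}.ncard = v + 1)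

def ST_DV2 : Prop := ∀ (K : Type) [Field K] [NumberField K], Module.finrank ℚ K = 3 →
    ∀ p : ℕ, p.Prime → ∃ s : Multiset (Ideal (𝓞 K)), s.card ≤ 3 ∧ (∀ P ∈ s, Prime P) ∧
      s.prod = Ideal.span {(p : 𝓞 K)}

def ST_DV3 : Prop := ∀ (K : Type) [Field K] [NumberField K], Module.finrank ℚ K = 3 →
    ∀ n : ℕ, n ≠ 0 → {J : Ideal (𝓞 K) | Ideal.absNorm J = n}.ncard ≤ n.divisors.card ^ 3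

def ST_TAU : Prop := ∀ t : ℝ, 1 ≤ t →
    ∑ n ∈ Finset.Icc 1 ⌊t⌋₊, (n.divisors.card : ℝ) ^ 3 ≤ t * (1 + Real.log t) ^ 8

def ST_IDC : Prop := ∀ (K : Type) [Field K] [NumberField K],
    Module.finrank ℚ K = 3 → ∀ t : ℝ, 1 ≤ t → ((ID K t).ncard : ℝ) ≤ t * (1 + Real.log t) ^ 8

def ST_UB0 : Prop := ∃ c : ℝ, 0 < c ∧ ∀ (K : Type) [Field K] [NumberField K],
    Module.finrank ℚ K = 3 →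
    ∀ u : (𝓞 K)ˣ, u ≠ 1 → u ≠ -1 → ∃ σ : K →+* ℂ, c ≤ |Real.log ‖σ ((u : 𝓞 K) : K)‖|

/-- a fundamental unit -/
def UC (K : Type) [Field K] [NumberField K] (c : ℝ) (ε : (𝓞 K)ˣ) : Prop :=
  (∀ u : (𝓞 K)ˣ, ∃ m : ℤ, u = ε ^ m ∨ u = -ε ^ m) ∧
  ∀ m : ℤ, ∃ σ : K →+* ℂ, c * |(m : ℝ)| ≤ |Real.log ‖σ (((ε ^ m : (𝓞 K)ˣ) : 𝓞 K) : K)‖|

/-- a pair of fundamental units -/
def UR (K : Type) [Field K] [NumberField K] (c : ℝ) (ε1 ε2 : (𝓞 K)ˣ) : Prop :=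
  (∀ u : (𝓞 K)ˣ, ∃ m n : ℤ, u = ε1 ^ m * ε2 ^ n ∨ u = -(ε1 ^ m * ε2 ^ n)) ∧
  ∀ m n : ℤ, ∃ σ : K →+* ℂ, c * max |(m : ℝ)| |(n : ℝ)| ≤
    |Real.log ‖σ (((ε1 ^ m * ε2 ^ n : (𝓞 K)ˣ) : 𝓞 K) : K)‖|

def ST_UBC : Prop := ∃ c : ℝ, 0 < c ∧ ∀ (K : Type) [Field K] [NumberField K],
    Module.finrank ℚ K = 3 → Fintype.card (InfinitePlace K) = 2 → ∃ ε : (𝓞 K)ˣ, UC K c ε

def ST_UBR : Prop := ∃ c : ℝ, 0 < c ∧ ∀ (K : Type) [Field K] [NumberField K],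
    Module.finrank ℚ K = 3 → Fintype.card (InfinitePlace K) = 3 → ∃ ε1 ε2 : (𝓞 K)ˣ, UR K c ε1 ε2

/-! ## F. Embeddings -/

def ST_LF : Prop := ∀ (K : Type) [Field K] [NumberField K], Module.finrank ℚ K = 3 →
    ∀ σ : Fin 3 → (K →+* ℂ), Function.Injective σ →
    ∃ L : IntermediateField ℚ ℂ, FiniteDimensional ℚ L ∧ Module.finrank ℚ L ≤ 27 ∧
      (∀ i x, σ i x ∈ L) ∧ ∀ (τ : L →+* ℂ) (i : Fin 3), ∃ j : Fin 3,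
        ∀ (x : K) (hx : σ i x ∈ L), τ ⟨σ i x, hx⟩ = σ j x

def ST_KER : Prop := ∀ (K : Type) [Field K] [NumberField K], Module.finrank ℚ K = 3 →
    ∀ σ τ : K →+* ℂ, σ ≠ τ → (∀ x : K, σ x = τ x → ∃ q : ℚ, x = algebraMap ℚ K q) ∧
    ∀ u : (𝓞 K)ˣ, (σ ((u : 𝓞 K) : K) / τ ((u : 𝓞 K) : K)) ^ 2 = 1 → u = 1 ∨ u = -1

def ST_EMB3 : Prop := ∀ (K : Type) [Field K] [NumberField K], Module.finrank ℚ K = 3 →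
    ∀ σ : Fin 3 → (K →+* ℂ), Function.Injective σ →
    (∀ τ : K →+* ℂ, ∃ i, τ = σ i) ∧
    (∀ x : 𝓞 K, ∏ i, ‖σ i (x : K)‖ = |(Algebra.norm ℤ x : ℝ)|) ∧
    ((∀ i x, (σ i x).im = 0) → Fintype.card (InfinitePlace K) = 3) ∧
    ((∀ x, σ 2 x = (starRingEnd ℂ) (σ 1 x)) → (∀ x, (σ 0 x).im = 0) →
      Fintype.card (InfinitePlace K) = 2)

def ST_THE : Prop := ∀ (α : Fin 3 → ℂ) (a b c e : ℤ) (H : ℝ), 1 ≤ H → a ≠ 0 →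
    |(a : ℝ)| ≤ H → |(b : ℝ)| ≤ H → |(c : ℝ)| ≤ H → |(e : ℝ)| ≤ H →
    (b : ℂ) = -a * (α 0 + α 1 + α 2) → (c : ℂ) = a * (α 0 * α 1 + α 0 * α 2 + α 1 * α 2) →
    (e : ℂ) = -a * (α 0 * α 1 * α 2) → dsc a b c e ≠ 0 →
    (∀ i j, i ≠ j → ‖α i - α j‖ ≤ 4 * H ∧ 1 ≤ 16 * H ^ 4 * ‖α i - α j‖) ∧
    ∀ i j k, i ≠ j → i ≠ k → j ≠ k →
      IsIntegral ℤ (((a ^ 2 * dsc a b c e : ℤ) : ℂ) * ((α i - α j) / (α i - α k)))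

/-! ## G. The linear form of a cubic field -/

def ST_GRa : Prop := ∀ c : ℝ, 0 < c → ∃ c0 C3 : ℝ, 0 < c0 ∧ 1 ≤ C3 ∧
    ∀ (K : Type) [Field K] [NumberField K], Module.finrank ℚ K = 3 →
      ∀ σ : Fin 3 → (K →+* ℂ), Function.Injective σ → ∀ π : 𝓞 K, π ≠ 0 →
      ∀ (ε1 ε2 : (𝓞 K)ˣ), UR K c ε1 ε2 → ∀ (θ : ℂ) (lam : Fin 3 → ℂ) (A S : ℝ), θ ≠ 0 → 1 ≤ A →
      (∀ i, |Real.log ‖σ i (π : K)‖| ≤ S) →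
      (∀ p, p ≠ 0 → c0 ≤ nrm σ π ε1 ε2 A lam p) ∧
      (∀ p i, |((p i : ℤ) : ℝ)| ≤ C3 * (1 + S) * nrm σ π ε1 ε2 A lam p) ∧
      ∀ ρ, 0 ≤ ρ → ({p : Fin 3 → ℤ | nrm σ π ε1 ε2 A lam p ≤ ρ ∧
        (θ ^ (p 0) * (σ 1 (gel π ε1 ε2 p) / σ 2 (gel π ε1 ε2 p))) ^ 2 = 1}.ncard : ℝ) ≤
          4 * (ρ + 1) ^ 2

def ST_GRb : Prop := ∀ c : ℝ, 0 < c → ∃ C3 : ℝ, 1 ≤ C3 ∧
    ∀ (K : Type) [Field K] [NumberField K], Module.finrank ℚ K = 3 →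
      Fintype.card (InfinitePlace K) = 3 →
      ∀ σ : Fin 3 → (K →+* ℂ), Function.Injective σ → ∀ π : 𝓞 K, π ≠ 0 →
      ∀ (ε1 ε2 : (𝓞 K)ˣ), UR K c ε1 ε2 → ∀ (lam : Fin 3 → ℂ) (A h ν : ℝ),
      1 ≤ h → Real.log |(NumberField.discr K : ℝ)| ≤ h → 1 ≤ A →
      Real.log |(Algebra.norm ℤ π : ℝ)| ≤ A →
      ((ID K (2 * Real.sqrt |(NumberField.discr K : ℝ)|)).ncard : ℝ) ≤ ν →
      (∀ p : Fin 3 → ℤ, ‖∑ i, ((p i : ℤ) : ℂ) * lam i‖ ≤ A * |(p 0 : ℝ)| +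
        2 * |Real.log ‖σ 1 (gel π ε1 ε2 p)‖| + 2 * |Real.log ‖σ 2 (gel π ε1 ε2 p)‖|) →
      ∀ ρ, C3 * (A + h) ≤ ρ → ρ ^ 3 ≤ C3 * ν * A * h ^ 2 *
        ({p : Fin 3 → ℤ | nrm σ π ε1 ε2 A lam p ≤ ρ}.ncard : ℝ)

def ST_GCa : Prop := ∀ c : ℝ, 0 < c → ∃ c0 C3 : ℝ, 0 < c0 ∧ 1 ≤ C3 ∧
    ∀ (K : Type) [Field K] [NumberField K], Module.finrank ℚ K = 3 →
      ∀ σ : Fin 3 → (K →+* ℂ), Function.Injective σ → ∀ π : 𝓞 K, π ≠ 0 →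
      ∀ (ε1 : (𝓞 K)ˣ), UC K c ε1 → ∀ (θ : ℂ) (lam : Fin 3 → ℂ) (A S : ℝ), θ ≠ 0 → 1 ≤ A →
      ‖lam 0‖ ≤ 2 * Real.pi → ‖lam 1‖ ≤ 2 * Real.pi → lam 2 = 2 * Real.pi * Complex.I →
      (∀ i, |Real.log ‖σ i (π : K)‖| ≤ S) →
      (∀ p, p ≠ 0 → c0 ≤ nrm σ π ε1 1 A lam p) ∧
      (∀ p i, |((p i : ℤ) : ℝ)| ≤ C3 * (1 + S) * nrm σ π ε1 1 A lam p) ∧
      ∀ ρ, 0 ≤ ρ → ({p : Fin 3 → ℤ | nrm σ π ε1 1 A lam p ≤ ρ ∧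
        (θ ^ (p 0) * (σ 1 (gel π ε1 1 p) / σ 2 (gel π ε1 1 p))) ^ 2 = 1}.ncard : ℝ) ≤
          4 * (ρ + 1) ^ 2

def ST_GCb : Prop := ∀ c : ℝ, 0 < c → ∃ C3 : ℝ, 1 ≤ C3 ∧
    ∀ (K : Type) [Field K] [NumberField K], Module.finrank ℚ K = 3 →
      Fintype.card (InfinitePlace K) = 2 →
      ∀ σ : Fin 3 → (K →+* ℂ), Function.Injective σ → ∀ π : 𝓞 K, π ≠ 0 →
      ∀ (ε1 : (𝓞 K)ˣ), UC K c ε1 → ∀ (lam : Fin 3 → ℂ) (A h ν : ℝ),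
      1 ≤ h → Real.log |(NumberField.discr K : ℝ)| ≤ h → 1 ≤ A →
      Real.log |(Algebra.norm ℤ π : ℝ)| ≤ A →
      ((ID K (2 * Real.sqrt |(NumberField.discr K : ℝ)|)).ncard : ℝ) ≤ ν →
      (lam 0).re = 0 → (lam 1).re = 0 → lam 2 = 2 * Real.pi * Complex.I →
      ∀ ρ, C3 * (A + h) ≤ ρ → ρ ^ 3 ≤ C3 * ν * A * h ^ 2 *
        ({p : Fin 3 → ℤ | nrm σ π ε1 1 A lam p ≤ ρ}.ncard : ℝ)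

def ST_GR : Prop := ∃ c0 C3 : ℝ, 0 < c0 ∧ 1 ≤ C3 ∧ ∀ (K : Type) [Field K] [NumberField K],
    Module.finrank ℚ K = 3 → ∀ σ : Fin 3 → (K →+* ℂ), Function.Injective σ →
      (∀ i x, (σ i x).im = 0) → ∀ π : 𝓞 K, π ≠ 0 → ∀ (θ : ℂ) (A h S ν : ℝ), θ ≠ 0 → θ.im = 0 →
      |Real.log ‖θ‖| ≤ A / 2 → 1 ≤ h → Real.log |(NumberField.discr K : ℝ)| ≤ h → 1 ≤ A →
      Real.log |(Algebra.norm ℤ π : ℝ)| ≤ A → (∀ i, |Real.log ‖σ i (π : K)‖| ≤ S) →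
      ((ID K (2 * Real.sqrt |(NumberField.discr K : ℝ)|)).ncard : ℝ) ≤ ν →
      ∃ (ε1 ε2 : (𝓞 K)ˣ) (lam : Fin 3 → ℂ),
        ‖lam 0‖ ≤ 2 * |Real.log ‖θ * (σ 1 (π : K) / σ 2 (π : K))‖| ∧
        Good K σ π ε1 ε2 θ lam A h S ν c0 C3

def ST_GC : Prop := ∃ c0 C3 : ℝ, 0 < c0 ∧ 1 ≤ C3 ∧ ∀ (K : Type) [Field K] [NumberField K],
    Module.finrank ℚ K = 3 → ∀ σ : Fin 3 → (K →+* ℂ), Function.Injective σ →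
      (∀ x, σ 2 x = (starRingEnd ℂ) (σ 1 x)) → (∀ x, (σ 0 x).im = 0) → ∀ π : 𝓞 K, π ≠ 0 →
      ∀ (θ : ℂ) (A h S ν : ℝ), ‖θ‖ = 1 → 1 ≤ h → Real.log |(NumberField.discr K : ℝ)| ≤ h → 1 ≤ A →
      Real.log |(Algebra.norm ℤ π : ℝ)| ≤ A → (∀ i, |Real.log ‖σ i (π : K)‖| ≤ S) →
      ((ID K (2 * Real.sqrt |(NumberField.discr K : ℝ)|)).ncard : ℝ) ≤ ν →
      ∃ (ε1 ε2 : (𝓞 K)ˣ) (lam : Fin 3 → ℂ),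
        lam 0 = 2 * Complex.log (θ * (σ 1 (π : K) / σ 2 (π : K))) ∧
        Good K σ π ε1 ε2 θ lam A h S ν c0 C3

/-- the common hypotheses on `α` -/
structure AlH (K : Type) [Field K] [NumberField K] (σ : Fin 3 → (K →+* ℂ)) (α : K) (n0 : ℕ)
    (H : ℝ) : Prop where
  sep : ∀ i j, i ≠ j → ‖σ i α - σ j α‖ ≤ 4 * H ∧ 1 ≤ 16 * H ^ 4 * ‖σ i α - σ j α‖
  pos : 0 < n0
  le : (n0 : ℝ) ≤ 54 * H ^ 6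
  int : ∀ i j k, i ≠ j → i ≠ k → j ≠ k →
    IsIntegral ℤ ((n0 : ℂ) * ((σ i α - σ j α) / (σ i α - σ k α)))

/-- CMl: Liouville bound for `G - 1`. -/
def ST_CMl : Prop := ∀ (K : Type) [Field K] [NumberField K], Module.finrank ℚ K = 3 →
      ∀ σ : Fin 3 → (K →+* ℂ), Function.Injective σ → ∀ π : 𝓞 K, π ≠ 0 →
      ∀ (α : K) (n0 : ℕ) (H : ℝ), 3 ≤ H → |(Algebra.norm ℤ π : ℝ)| ≤ H → AlH K σ α n0 H →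
      ∀ G : ℂ, G = (σ 0 α - σ 1 α) / (σ 0 α - σ 2 α) * (σ 1 (π : K) / σ 2 (π : K)) → G ≠ 1 →
      -Real.log ‖G - 1‖ ≤ 1000 * ((∑ i, |Real.log ‖σ i (π : K)‖|) + Real.log H)

/-- CMs: the size function. -/
def ST_CMs : Prop := ∀ (K : Type) [Field K] [NumberField K], Module.finrank ℚ K = 3 →
      ∀ σ : Fin 3 → (K →+* ℂ), Function.Injective σ → ∀ π : 𝓞 K, π ≠ 0 →
      ∀ (ε1 ε2 : (𝓞 K)ˣ) (α : K) (n0 : ℕ) (lam : Fin 3 → ℂ) (H S ν c0 C3 U : ℝ), 3 ≤ H → 3 ≤ S →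
      0 < c0 → 1 ≤ C3 → |(Algebra.norm ℤ π : ℝ)| ≤ H → AlH K σ α n0 H →
      Good K σ π ε1 ε2 ((σ 0 α - σ 1 α) / (σ 0 α - σ 2 α)) lam (100 * Real.log H) (Real.log H)
        S ν c0 C3 →
      (σ 0 α - σ 1 α) / (σ 0 α - σ 2 α) * (σ 1 (π : K) / σ 2 (π : K)) ≠ 1 →
      ‖(σ 0 α - σ 1 α) / (σ 0 α - σ 2 α) * (σ 1 (π : K) / σ 2 (π : K)) - 1‖ ≤ 1 / 2 ^ 30 →
      U < nrm σ π ε1 ε2 (100 * Real.log H) lam ![1, 0, 0] →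
      ∃ (L : Type) (_ : Field L) (_ : NumberField L) (φ : L →+* ℂ) (γ : Fin 3 → L),
        Module.finrank ℚ L ≤ 27 ∧
        Sz L φ γ lam (nrm σ π ε1 ε2 (100 * Real.log H) lam) c0 U (C3 * (1 + S) * U) ∧
        ∀ p : Fin 3 → ℤ, (∏ i, γ i ^ (p i) = 1 ↔
          (((σ 0 α - σ 1 α) / (σ 0 α - σ 2 α)) ^ (p 0) *
            (σ 1 (gel π ε1 ε2 p) / σ 2 (gel π ε1 ε2 p))) ^ 2 = 1)

def ST_CM : Prop := ∀ (c0 C3 : ℝ), 0 < c0 → 1 ≤ C3 → ∃ C : ℝ, 1 ≤ C ∧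
    ∀ (K : Type) [Field K] [NumberField K], Module.finrank ℚ K = 3 →
      ∀ σ : Fin 3 → (K →+* ℂ), Function.Injective σ → ∀ π : 𝓞 K, π ≠ 0 →
      ∀ (ε1 ε2 : (𝓞 K)ˣ) (α : K) (n0 : ℕ) (lam : Fin 3 → ℂ) (H S ν : ℝ), 3 ≤ H → 3 ≤ S → 1 ≤ ν →
      ν ≤ H ^ 4 → |(Algebra.norm ℤ π : ℝ)| ≤ H → AlH K σ α n0 H →
      Good K σ π ε1 ε2 ((σ 0 α - σ 1 α) / (σ 0 α - σ 2 α)) lam (100 * Real.log H) (Real.log H)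
        S ν c0 C3 →
      ∀ G : ℂ, G = (σ 0 α - σ 1 α) / (σ 0 α - σ 2 α) * (σ 1 (π : K) / σ 2 (π : K)) → G ≠ 1 →
      ‖G - 1‖ ≤ 1 / 2 ^ 30 → ‖lam 0‖ ≤ 4 * ‖G - 1‖ →
      -Real.log ‖G - 1‖ ≤ C * ν * (Real.log H + Real.log S) ^ 11

def ST_NT : Prop := ∃ C : ℝ, 1 ≤ C ∧ ∀ (K : Type) [Field K] [NumberField K],
    Module.finrank ℚ K = 3 → ∀ σ : Fin 3 → (K →+* ℂ), Function.Injective σ →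
      ∀ (α : K) (a b c e : ℤ), a ≠ 0 → (∀ i j, i ≠ j → σ i α ≠ σ j α) →
      (a : K) * α ^ 3 + b * α ^ 2 + c * α + e = 0 → dsc a b c e ≠ 0 →
      ∀ (π : 𝓞 K), π ≠ 0 → ∀ (H S ν : ℝ), 3 ≤ H → |(a : ℝ)| ≤ H → |(b : ℝ)| ≤ H →
      |(c : ℝ)| ≤ H → |(e : ℝ)| ≤ H → |(Algebra.norm ℤ π : ℝ)| ≤ H →
      |(NumberField.discr K : ℝ)| ≤ H → 3 ≤ S → (∀ i, |Real.log ‖σ i (π : K)‖| ≤ S) → 1 ≤ ν →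
      ν ≤ H ^ 4 → ((ID K (2 * Real.sqrt |(NumberField.discr K : ℝ)|)).ncard : ℝ) ≤ ν →
      ((∀ i x, (σ i x).im = 0) ∨
        ((∀ x, σ 2 x = (starRingEnd ℂ) (σ 1 x)) ∧ (∀ x, (σ 0 x).im = 0))) →
      ∀ G : ℂ, G = (σ 0 α - σ 1 α) / (σ 0 α - σ 2 α) * (σ 1 (π : K) / σ 2 (π : K)) → G ≠ 1 →
      ‖G - 1‖ ≤ 1 / 2 ^ 30 →
      -Real.log ‖G - 1‖ ≤ C * ν * (Real.log H + Real.log S) ^ 11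

/-! ## H. The Mordell equation -/

def ST_DISC : Prop := ∀ (K : Type) [Field K] [NumberField K], Module.finrank ℚ K = 3 → ∀ (β : K)
    (x y : ℤ), β ^ 3 - 3 * (x : K) * β + 2 * (y : K) = 0 → (∀ q : ℚ, β ≠ algebraMap ℚ K q) →
    |(NumberField.discr K : ℝ)| ≤ 108 * |((x ^ 3 - y ^ 2 : ℤ) : ℝ)|

def ST_FLD : Prop := ∀ (x y : ℤ), (∀ n : ℤ, n ^ 3 - 3 * x * n + 2 * y ≠ 0) →
    ∃ (K : Type) (_ : Field K) (_ : NumberField K) (β : K), Module.finrank ℚ K = 3 ∧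
      β ^ 3 - 3 * (x : K) * β + 2 * (y : K) = 0 ∧ (∀ q : ℚ, β ≠ algebraMap ℚ K q) ∧
      ∀ z : ℂ, z ^ 3 - 3 * (x : ℂ) * z + 2 * (y : ℂ) = 0 → ∃ σ : K →+* ℂ, σ β = z

def ST_RT : Prop := ∃ C : ℝ, 1 ≤ C ∧ ∀ x y d : ℤ, y ^ 2 = x ^ 3 + d → d ≠ 0 → 0 < y →
    C * |(d : ℝ)| ≤ x → ∃ z : Fin 3 → ℂ, Function.Injective z ∧
      (∀ i, z i ^ 3 - 3 * (x : ℂ) * z i + 2 * (y : ℂ) = 0) ∧ (∀ i, ‖z i‖ ≤ C * x) ∧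
      Real.sqrt x ≤ ‖z 0 - z 1‖ ∧ Real.sqrt x ≤ ‖z 0 - z 2‖ ∧
      (x : ℝ) * ‖z 1 - z 2‖ ≤ C * Real.sqrt |(d : ℝ)| ∧
      ((∀ i, (z i).im = 0) ∨ (z 2 = (starRingEnd ℂ) (z 1) ∧ (z 0).im = 0))

def ST_RED : Prop := ∃ C : ℝ, 1 ≤ C ∧ ∀ x y d : ℤ, y ^ 2 = x ^ 3 + d → d ≠ 0 → 0 < y →
    C * |(d : ℝ)| ≤ x → (∀ n : ℤ, n ^ 3 - 3 * x * n + 2 * y ≠ 0) →
    ∃ α β γ δ a b c e : ℤ, α * δ - β * γ = 1 ∧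
      a = δ ^ 3 - 3 * x * δ * γ ^ 2 - 2 * y * γ ^ 3 ∧
      b = -3 * δ ^ 2 * β + 3 * x * (2 * α * γ * δ + β * γ ^ 2) + 6 * y * γ ^ 2 * α ∧
      c = 3 * δ * β ^ 2 - 3 * x * (δ * α ^ 2 + 2 * α * β * γ) - 6 * y * γ * α ^ 2 ∧
      e = -β ^ 3 + 3 * x * β * α ^ 2 + 2 * y * α ^ 3 ∧ a ≠ 0 ∧
      |(a : ℝ)| ≤ C * |(d : ℝ)| ∧ |(b : ℝ)| ≤ C * |(d : ℝ)| ∧ |(c : ℝ)| ≤ C * |(d : ℝ)| ∧
      |(e : ℝ)| ≤ C * |(d : ℝ)| ∧ |(γ : ℝ)| ≤ C * x ∧ |(δ : ℝ)| ≤ C * x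

def ST_RDC : Prop := ∀ (x y d n : ℤ), y ^ 2 = x ^ 3 + d → d ≠ 0 → n ^ 3 - 3 * x * n + 2 * y = 0 →
    |(x : ℝ)| ≤ 100 * |(d : ℝ)|

def ST_CAL : Prop := ∀ C : ℝ, 1 ≤ C → ∃ C' : ℝ, 1 ≤ C' ∧ ∀ d t : ℝ, 1 ≤ d → 1 ≤ t →
    t ≤ C * Real.sqrt d * (Real.log d + Real.log t + C) ^ 19 →
    t ≤ C' * Real.sqrt d * (1 + Real.log d) ^ 19

def ST_HALL : Prop := ∃ C : ℝ, ∀ d x y : ℤ, d ≠ 0 → y ^ 2 = x ^ 3 + d →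
    Real.log |(x : ℝ)| ≤ C * Real.sqrt |(d : ℝ)| * (1 + Real.log |(d : ℝ)|) ^ 19

end Pool.Helper99.BK
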