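import Pool.Agent.Helper99.BK.Stmts

/-! Module AR: arithmetic lower bound for a determinant. -/

set_option autoImplicit false

namespace Pool.Helper99.BK

open NumberField

theorem ar_det (ι : Type) [Fintype ι] [DecidableEq ι] (M : Matrix ι ι ℂ) (B : ℝ)
    (h : ∀ p j, ‖M p j‖ ≤ B) : ‖M.det‖ ≤ ((Fintype.card ι).factorial : ℝ) * B ^ (Fintype.card ι) := by
  rw [Matrix.det_apply]
  refine (norm_sum_le _ _).trans ?_
  have h1 : ∀ σ : Equiv.Perm ι, ‖Equiv.Perm.sign σ • ∏ i, M (σ i) i‖ ≤ B ^ (Fintype.card ι) := by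
    intro σ
    have h2 : ‖Equiv.Perm.sign σ • ∏ i, M (σ i) i‖ = ∏ i, ‖M (σ i) i‖ := by
      rcases Int.units_eq_one_or (Equiv.Perm.sign σ) with h3 | h3
      · rw [h3]; simp [norm_prod]
      · rw [h3]; simp [norm_prod]
    rw [h2]
    have h4 : ∏ i, ‖M (σ i) i‖ ≤ ∏ _i : ι, B :=
      Finset.prod_le_prod (fun i _ => norm_nonneg _) (fun i _ => h _ _)
    rwa [Finset.prod_const, Finset.card_univ] at h4
  calc ∑ σ : Equiv.Perm ι, ‖Equiv.Perm.sign σ • ∏ i, M (σ i) i‖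
      ≤ ∑ _σ : Equiv.Perm ι, B ^ (Fintype.card ι) := Finset.sum_le_sum (fun σ _ => h1 σ)
    _ = ((Fintype.card ι).factorial : ℝ) * B ^ (Fintype.card ι) := by
        rw [Finset.sum_const, Finset.card_univ, Fintype.card_perm, nsmul_eq_mul]

theorem st_AR (h1 : ST_LIOU) : ST_AR := by
  intro L _ _ φ ι _ _ M hdet q hq hint Q B hB hM hQ
  classical
  have hfac : (1 : ℝ) ≤ ((Fintype.card ι).factorial : ℝ) := by
    exact_mod_cast Nat.succ_le_of_lt (Nat.factorial_pos _)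
  have hM1 : (1 : ℝ) ≤ ((Fintype.card ι).factorial : ℝ) * B ^ (Fintype.card ι) :=
    one_le_mul_of_one_le_of_one_le hfac (one_le_pow₀ hB)
  have hq' : 0 < ∏ p, q p := Finset.prod_pos (fun p _ => hq p)
  have hτ : ∀ τ : L →+* ℂ, ‖τ M.det‖ ≤ ((Fintype.card ι).factorial : ℝ) * B ^ (Fintype.card ι) := by
    intro τ
    have h2 : τ M.det = (τ.mapMatrix M).det := RingHom.map_det τ M
    rw [h2]
    apply ar_det
    intro p j
    exact hM τ p j
  have hI : IsIntegral ℤ (((∏ p, q p : ℕ) : L) * M.det) := by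
    have h3 : ((∏ p, q p : ℕ) : L) * M.det = (Matrix.of (fun p j => (q p : L) * M p j)).det := by
      rw [Matrix.det_mul_column]
      push_cast
      rfl
    rw [h3]
    exact IsIntegral.det (fun p j => hint p j)
  have h4 := h1 L φ M.det hdet (∏ p, q p) hq' hI _ hM1 hτ
  have hQ0 : ∀ p, (0 : ℝ) ≤ (q p : ℝ) := fun p => Nat.cast_nonneg _
  have h5 : ((∏ p, q p : ℕ) : ℝ) ≤ Q ^ (Fintype.card ι) := by
    push_cast
    have h6 : ∏ p, (q p : ℝ) ≤ ∏ _p : ι, Q :=
      Finset.prod_le_prod (fun p _ => hQ0 p) (fun p _ => hQ p)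
    rwa [Finset.prod_const, Finset.card_univ] at h6
  refine h4.trans ?_
  apply mul_le_mul_of_nonneg_left _ (norm_nonneg _)
  apply mul_le_mul_of_nonneg_right _ (by positivity)
  exact pow_le_pow_left₀ (by positivity) h5 _

end Pool.Helper99.BK
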