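import Pool.Agent.Helper99.BK.GR

/-! Module GC: the linear form of a cubic field with a complex place. -/

set_option autoImplicit false

namespace Pool.Helper99.BK

open NumberField

theorem gc_log (x : ℂ) (hx : ‖x‖ = 1) : (Complex.log x).re = 0 ∧ ‖Complex.log x‖ ≤ Real.pi := by
  have h1 : (Complex.log x).re = 0 := by
    rw [Complex.log_re, hx, Real.log_one]
  have h2 : Complex.log x = ((Complex.log x).im : ℂ) * Complex.I := by
    apply Complex.ext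
    · simp [h1]
    · simp
  refine ⟨h1, ?_⟩
  rw [h2, norm_mul, Complex.norm_I, mul_one, Complex.norm_real, Real.norm_eq_abs, Complex.log_im]
  exact Complex.abs_arg_le_pi x

theorem st_GC (h1 : ST_UBC) (h2 : ST_EMB3) (h3 : ST_GCa) (h4 : ST_GCb) : ST_GC := by
  obtain ⟨c, hc, hUBC⟩ := h1
  obtain ⟨c0, C3a, hc0, hC3a, hGCa⟩ := h3 c hc
  obtain ⟨C3b, hC3b, hGCb⟩ := h4 c hc
  refine ⟨c0, max C3a C3b, hc0, hC3a.trans (le_max_left _ _), ?_⟩
  intro K _ _ hK σ hσ hconj hre π hπ θ A h S ν hθ hh hdisc hA hN hS hν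
  have hcard : Fintype.card (InfinitePlace K) = 2 := (h2 K hK σ hσ).2.2.2 hconj hre
  obtain ⟨ε1, hUC⟩ := hUBC K hK hcard
  set x0 : ℂ := θ * (σ 1 (π : K) / σ 2 (π : K)) with hx0
  set x1 : ℂ := σ 1 ((ε1 : 𝓞 K) : K) / σ 2 ((ε1 : 𝓞 K) : K) with hx1
  have hp1 := gr_pi_ne (σ 1) π hπ
  have hp2 := gr_pi_ne (σ 2) π hπ
  have he11 := gr_unit_ne (σ 1) ε1
  have he12 := gr_unit_ne (σ 2) ε1
  have hθ0 : θ ≠ 0 := by
    intro h0
    rw [h0, norm_zero] at hθ
    exact zero_ne_one hθ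
  have n0 : x0 ≠ 0 := mul_ne_zero hθ0 (div_ne_zero hp1 hp2)
  have n1 : x1 ≠ 0 := div_ne_zero he11 he12
  have hq : ∀ x : K, x ≠ 0 → ‖σ 1 x / σ 2 x‖ = 1 := by
    intro x hx
    rw [hconj x, norm_div, Complex.norm_conj]
    exact div_self (norm_ne_zero_iff.mpr ((map_ne_zero _).mpr hx))
  have hπK : (π : K) ≠ 0 := by
    intro h0
    exact hπ (by exact_mod_cast h0)
  have hεK : ((ε1 : 𝓞 K) : K) ≠ 0 := by
    intro h0
    exact ε1.ne_zero (by exact_mod_cast h0)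
  have m0 : ‖x0‖ = 1 := by rw [hx0, norm_mul, hθ, hq _ hπK, one_mul]
  have m1 : ‖x1 ^ 2‖ = 1 := by rw [norm_pow, hx1, hq _ hεK, one_pow]
  set lam : Fin 3 → ℂ := ![2 * Complex.log x0, Complex.log (x1 ^ 2),
    2 * Real.pi * Complex.I] with hlam
  have l0 : lam 0 = 2 * Complex.log x0 := rfl
  have l1 : lam 1 = Complex.log (x1 ^ 2) := rfl
  have l2 : lam 2 = 2 * Real.pi * Complex.I := rfl
  have hS0 : 0 ≤ S := (abs_nonneg _).trans (hS 0)
  have hν0 : 0 ≤ ν := (Nat.cast_nonneg _).trans hν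
  have hA0 : 0 ≤ A := by linarith
  have hpi := Real.pi_pos
  have b0 : ‖lam 0‖ ≤ 2 * Real.pi := by
    rw [l0, norm_mul]
    have h5 := (gc_log x0 m0).2
    have h6 : ‖(2 : ℂ)‖ = 2 := by simp
    rw [h6]
    linarith
  have b1 : ‖lam 1‖ ≤ 2 * Real.pi := by
    rw [l1]
    have h5 := (gc_log _ m1).2
    linarith
  have r0 : (lam 0).re = 0 := by
    rw [l0, Complex.mul_re, (gc_log x0 m0).1]
    simp
  have r1 : (lam 1).re = 0 := by
    rw [l1]
    exact (gc_log _ m1).1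
  obtain ⟨g1, g2, g3⟩ := hGCa K hK σ hσ π hπ ε1 hUC θ lam A S hθ0 hA b0 b1 l2 hS
  refine ⟨ε1, 1, lam, l0, ?_⟩
  refine ⟨?_, ?_, ?_, g1, ?_, ?_, g3⟩
  · rw [l0, two_mul, Complex.exp_add, Complex.exp_log n0, ← sq]
  · rw [l1, Complex.exp_log (pow_ne_zero 2 n1)]
  · rw [l2, Complex.exp_two_pi_mul_I]
    simp
  · intro p i
    refine (g2 p i).trans ?_
    apply mul_le_mul_of_nonneg_right _ (gr_nrm_nonneg σ π ε1 1 A hA0 lam p)
    apply mul_le_mul_of_nonneg_right (le_max_left _ _) (by linarith)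
  · intro ρ hρ
    have hAh : 0 ≤ A + h := by linarith
    have hρ' : C3b * (A + h) ≤ ρ :=
      (mul_le_mul_of_nonneg_right (le_max_right _ _) hAh).trans hρ
    refine (hGCb K hK hcard σ hσ π hπ ε1 hUC lam A h ν hh hdisc hA hN hν r0 r1 l2 ρ hρ').trans ?_
    apply mul_le_mul_of_nonneg_right _ (Nat.cast_nonneg _)
    apply mul_le_mul_of_nonneg_right _ (by positivity)
    apply mul_le_mul_of_nonneg_right _ hA0
    exact mul_le_mul_of_nonneg_right (le_max_right _ _) hν0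

end Pool.Helper99.BK
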