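import Pool.Agent.Helper99.BK.Stmts

/-! Module IDF: finitely many ideals of bounded norm. -/

set_option autoImplicit false

namespace Pool.Helper99.BK

open NumberField

theorem st_IDF : ST_IDF := by
  intro K _ _ t
  apply (Ideal.finite_setOfPred_absNorm_le (S := 𝓞 K) ⌊t⌋₊).subset
  rintro J ⟨-, hJ⟩
  exact Nat.le_floor hJ

end Pool.Helper99.BK
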