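import Pool.Agent.Helper99.BK.Stmts

/-! Module LIOU: Liouville inequality. -/

set_option autoImplicit false

namespace Pool.Helper99.BK

open NumberField

theorem st_LIOU : ST_LIOU := by
  intro L _ _ φ z hz q hq hint M hM1 hM
  classical
  have hq0 : (q : L) ≠ 0 := by exact_mod_cast hq.ne'
  have hne : (q : L) * z ≠ 0 := mul_ne_zero hq0 hz
  have hN0 : Algebra.norm ℚ ((q : L) * z) ≠ 0 := Algebra.norm_ne_zero_iff.mpr hne
  obtain ⟨n, hn⟩ := IsIntegrallyClosed.isIntegral_iff.mp (Algebra.isIntegral_norm ℚ hint)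
  have hn0 : n ≠ 0 := by
    intro h0
    apply hN0
    rw [← hn, h0]
    simp
  have h1 : (1 : ℝ) ≤ ‖(algebraMap ℚ ℂ (Algebra.norm ℚ ((q : L) * z)))‖ := by
    rw [← hn]
    have h2 : (1 : ℝ) ≤ |(n : ℝ)| := by exact_mod_cast Int.one_le_abs hn0
    simpa using h2
  rw [Algebra.norm_eq_prod_embeddings ℚ ℂ ((q : L) * z), norm_prod] at h1
  have h3 : ∏ σ : L →ₐ[ℚ] ℂ, ‖σ ((q : L) * z)‖ =
      (q : ℝ) ^ (Module.finrank ℚ L) * ∏ σ : L →ₐ[ℚ] ℂ, ‖σ z‖ := by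
    rw [← AlgHom.card ℚ L ℂ]
    have h4 : ∀ σ : L →ₐ[ℚ] ℂ, ‖σ ((q : L) * z)‖ = (q : ℝ) * ‖σ z‖ := by
      intro σ
      rw [map_mul, norm_mul, map_natCast]
      simp
    rw [Finset.prod_congr rfl (fun σ _ => h4 σ), Finset.prod_mul_distrib, Finset.prod_const,
      Finset.card_univ]
  rw [h3] at h1
  have h5 : ∏ σ : L →ₐ[ℚ] ℂ, ‖σ z‖ ≤ ‖φ z‖ * M ^ (Module.finrank ℚ L - 1) := by
    rw [← Finset.mul_prod_erase Finset.univ (fun σ : L →ₐ[ℚ] ℂ => ‖σ z‖)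
      (Finset.mem_univ (φ.toRatAlgHom))]
    have h6 : ∏ σ ∈ Finset.univ.erase (φ.toRatAlgHom), ‖σ z‖ ≤
        ∏ σ ∈ (Finset.univ.erase (φ.toRatAlgHom) : Finset (L →ₐ[ℚ] ℂ)), M :=
      Finset.prod_le_prod (fun σ _ => norm_nonneg _) (fun σ _ => hM (σ : L →+* ℂ))
    rw [Finset.prod_const, Finset.card_erase_of_mem (Finset.mem_univ _), Finset.card_univ,
      AlgHom.card ℚ L ℂ] at h6
    exact mul_le_mul_of_nonneg_left h6 (norm_nonneg _)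
  calc (1 : ℝ) ≤ (q : ℝ) ^ (Module.finrank ℚ L) * ∏ σ : L →ₐ[ℚ] ℂ, ‖σ z‖ := h1
    _ ≤ (q : ℝ) ^ (Module.finrank ℚ L) * (‖φ z‖ * M ^ (Module.finrank ℚ L - 1)) :=
        mul_le_mul_of_nonneg_left h5 (by positivity)
    _ = ‖φ z‖ * ((q : ℝ) ^ (Module.finrank ℚ L) * M ^ (Module.finrank ℚ L - 1)) := by ring

end Pool.Helper99.BK
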