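import Pool.Agent.Helper99.BK.Stmts

set_option autoImplicit false

namespace Pool.Helper99.BK

open Finset

theorem main_const (A : ℝ) (hA : 1 ≤ A) : ∃ C : ℝ, 1 ≤ C ∧ A * (7 + Real.log C) ^ 6 ≤ C := by
  have h := (Real.isLittleO_pow_log_id_atTop (n := 6)).bound
    (show (0 : ℝ) < 1 / (A * 8 ^ 6) by positivity)
  have h2 : ∀ᶠ x : ℝ in Filter.atTop, Real.exp 1 ≤ x := Filter.eventually_ge_atTop _
  obtain ⟨x, hx, hx2⟩ := (h.and h2).exists
  have hx1 : 1 ≤ x := le_trans (by have := Real.add_one_le_exp (1 : ℝ); linarith) hx2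
  have hlog : 1 ≤ Real.log x := by
    rw [Real.le_log_iff_exp_le (by linarith)]
    exact hx2
  refine ⟨x, hx1, ?_⟩
  have h3 : Real.log x ^ 6 ≤ 1 / (A * 8 ^ 6) * x := by
    have h4 : ‖Real.log x ^ 6‖ = Real.log x ^ 6 := by
      rw [Real.norm_eq_abs, abs_of_nonneg (by positivity)]
    have h5 : ‖id x‖ = x := by
      rw [id, Real.norm_eq_abs, abs_of_nonneg (by linarith)]
    rw [h4, h5] at hx
    exact hx
  have h6 : (7 + Real.log x) ^ 6 ≤ (8 * Real.log x) ^ 6 := by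
    apply pow_le_pow_left₀ (by linarith)
    linarith
  calc A * (7 + Real.log x) ^ 6 ≤ A * (8 * Real.log x) ^ 6 := by gcongr
    _ = A * 8 ^ 6 * Real.log x ^ 6 := by ring
    _ ≤ A * 8 ^ 6 * (1 / (A * 8 ^ 6) * x) := by gcongr
    _ = x := by field_simp

theorem main_finite (nrm : (Fin 3 → ℤ) → ℝ) (U Z : ℝ)
    (hcoo : ∀ p, nrm p ≤ U → ∀ i, |((p i : ℤ) : ℝ)| ≤ Z) (ρ : ℝ) (hρ : ρ ≤ U) :
    {p : Fin 3 → ℤ | nrm p ≤ ρ}.Finite := by
  apply (Set.finite_Icc (fun _ : Fin 3 => -⌈Z⌉) (fun _ : Fin 3 => ⌈Z⌉)).subset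
  intro p hp
  have h := hcoo p (le_trans hp hρ)
  constructor
  · intro i
    have h1 := (abs_le.1 (h i)).1
    have h2 : Z ≤ ⌈Z⌉ := Int.le_ceil Z
    have h3 : ((-⌈Z⌉ : ℤ) : ℝ) ≤ (p i : ℝ) := by push_cast; linarith
    exact_mod_cast h3
  · intro i
    have h1 := (abs_le.1 (h i)).2
    have h2 : Z ≤ ⌈Z⌉ := Int.le_ceil Z
    have h3 : (p i : ℝ) ≤ ((⌈Z⌉ : ℤ) : ℝ) := by linarith
    exact_mod_cast h3

theorem main_zpow_sub {L : Type} [Field L] (γ : Fin 3 → L) (hne : ∀ i, γ i ≠ 0) (p q : Fin 3 → ℤ) :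
    ∏ i, γ i ^ ((p - q) i) = (∏ i, γ i ^ (p i)) / ∏ i, γ i ^ (q i) := by
  rw [← Finset.prod_div_distrib]
  apply Finset.prod_congr rfl
  intro i _
  rw [Pi.sub_apply, zpow_sub₀ (hne i)]

theorem st_MAIN (h3 : ST_M3) (hd : ST_DEG) : ST_MAIN := by
  classical
  intro D c0 hc0
  obtain ⟨C3, hC3, H3⟩ := h3 D
  obtain ⟨C4, hC4, H4⟩ := hd D c0 hc0
  have hC34 : 1 ≤ C3 * C4 := one_le_mul_of_one_le_of_one_le hC3 hC4
  obtain ⟨C, hC, hCC⟩ := main_const (3456 * (C3 * C4)) (by linarith)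
  have hlogC : 0 ≤ Real.log C := Real.log_nonneg hC
  set c' : ℝ := 7 + Real.log C with hc'
  have hc'1 : 1 ≤ c' := by linarith
  refine ⟨C, hC, ?_⟩
  intro L _ _ hD φ γ lam nrm X ℓ U Z hX hℓ hZ hU hlX hlZ hSz hcount hker
  have hℓ0 : 0 < ℓ := by linarith
  have hX0 : 0 < X := by linarith
  have hC0 : 0 < C := by linarith
  have hℓ6 : 1 ≤ ℓ ^ 6 := one_le_pow₀ hℓ
  have hU1 : 1 ≤ U := by
    rw [hU]
    exact one_le_mul_of_one_le_of_one_le (one_le_mul_of_one_le_of_one_le hC hX) hℓ6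
  have hU0 : 0 < U := by linarith
  set ℓ' : ℝ := c' * ℓ with hℓ'
  have hℓ'1 : 1 ≤ ℓ' := one_le_mul_of_one_le_of_one_le hc'1 hℓ
  have hℓℓ' : ℓ ≤ ℓ' := by rw [hℓ']; nlinarith
  have hlogU : Real.log U ≤ ℓ' := by
    rw [hU, Real.log_mul (by positivity) (by positivity), Real.log_mul (by positivity) (by positivity),
      Real.log_pow]
    have h1 : Real.log ℓ ≤ ℓ := by
      have := Real.log_le_sub_one_of_pos hℓ0
      linarith
    push_cast
    rw [hℓ', hc']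
    nlinarith
  -- the size of zero and of negatives
  have hneg : ∀ p, nrm (-p) = nrm p := by
    intro p
    have h := hSz.smul (-1) p
    rw [neg_one_smul] at h
    rw [h]
    norm_num
  have hsub : ∀ p q, nrm (p - q) ≤ nrm p + nrm q := by
    intro p q
    rw [sub_eq_add_neg]
    have := hSz.add p (-q)
    rw [hneg] at this
    exact this
  have hfin : {p : Fin 3 → ℤ | nrm p ≤ U / 6}.Finite :=
    main_finite nrm U Z hSz.coo _ (by linarith)
  set S : Finset (Fin 3 → ℤ) := hfin.toFinset with hS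
  have hmem : ∀ p, p ∈ S ↔ nrm p ≤ U / 6 := by
    intro p
    rw [hS, Set.Finite.mem_toFinset]
    exact Iff.rfl
  have hScard : (S.card : ℝ) = ({p : Fin 3 → ℤ | nrm p ≤ U / 6}.ncard : ℝ) := by
    rw [Set.ncard_eq_toFinset_card _ hfin]
  have hScount : U ^ 2 * (C * ℓ ^ 6) / 216 ≤ S.card := by
    rw [hScard]
    have h1 : U ^ 3 / 216 ≤ X * ({p : Fin 3 → ℤ | nrm p ≤ U / 6}.ncard : ℝ) := by
      calc U ^ 3 / 216 = (U / 6) ^ 3 := by ring
        _ ≤ _ := hcount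
    have h2 : U ^ 2 * (C * ℓ ^ 6) / 216 = (U ^ 3 / 216) / X := by
      have : C * ℓ ^ 6 = U / X := by
        rw [hU]
        field_simp
      rw [this]
      field_simp
    rw [h2, div_le_iff₀ hX0]
    linarith
  have hsum3 : ∀ p ∈ S, ∀ q ∈ S, ∀ r ∈ S, nrm (p + (q + r)) ≤ U := by
    intro p hp q hq r hr
    have h1 := hSz.add p (q + r)
    have h2 := hSz.add q r
    have h4 := (hmem p).1 hp
    have h5 := (hmem q).1 hq
    have h6 := (hmem r).1 hr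
    linarith
  -- injectivity
  have hinj : ∀ p ∈ S, ∀ q ∈ S, p 1 = q 1 → p 2 = q 2 → p = q := by
    intro p hp q hq h1 h2
    have h4 := (hmem p).1 hp
    have h5 := (hmem q).1 hq
    have h6 : p - q = (p 0 - q 0) • (![1, 0, 0] : Fin 3 → ℤ) := by
      funext i
      fin_cases i
      · simp
      · simp [h1]
      · simp [h2]
    have h7 : nrm (p - q) = |((p 0 - q 0 : ℤ) : ℝ)| * nrm ![1, 0, 0] := by
      rw [h6, hSz.smul]
    have h8 := hsub p q
    by_contra hne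
    have h9 : p 0 - q 0 ≠ 0 := by
      intro h0
      apply hne
      funext i
      fin_cases i
      · simpa using sub_eq_zero.1 h0
      · simpa using h1
      · simpa using h2
    have h10 : (1 : ℝ) ≤ |((p 0 - q 0 : ℤ) : ℝ)| := by
      have : (1 : ℤ) ≤ |p 0 - q 0| := Int.one_le_abs h9
      exact_mod_cast this
    have h11 := hSz.big
    nlinarith
  -- number of values
  have hkfin : {p : Fin 3 → ℤ | nrm p ≤ U ∧ ∏ i, γ i ^ (p i) = 1}.Finite :=
    (main_finite nrm U Z hSz.coo U le_rfl).subset (fun p hp => hp.1)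
  have hfib : ∀ a ∈ S.image (fun p : Fin 3 → ℤ => φ (∏ i, γ i ^ (p i))),
      (S.filter (fun x : Fin 3 → ℤ => φ (∏ i, γ i ^ (x i)) = a)).card ≤ ⌊4 * (U + 1) ^ 2⌋₊ := by
    intro a ha
    obtain ⟨p0, hp0, rfl⟩ := Finset.mem_image.1 ha
    apply Nat.le_floor
    refine le_trans ?_ hker
    have h1 : ((S.filter (fun x : Fin 3 → ℤ =>
        φ (∏ i, γ i ^ (x i)) = φ (∏ i, γ i ^ (p0 i)))).image (fun x => x - p0)).card =
        (S.filter (fun x : Fin 3 → ℤ => φ (∏ i, γ i ^ (x i)) = φ (∏ i, γ i ^ (p0 i)))).card :=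
      Finset.card_image_of_injective _ (sub_left_injective)
    rw [← h1, Set.ncard_eq_toFinset_card _ hkfin]
    norm_cast
    apply Finset.card_le_card
    intro y hy
    obtain ⟨x, hx, rfl⟩ := Finset.mem_image.1 hy
    obtain ⟨hxS, hxe⟩ := Finset.mem_filter.1 hx
    rw [Set.Finite.mem_toFinset]
    refine ⟨?_, ?_⟩
    · have h4 := (hmem x).1 hxS
      have h5 := (hmem p0).1 hp0
      have := hsub x p0
      linarith
    · rw [main_zpow_sub γ hSz.ne, φ.injective hxe]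
      apply div_self
      exact Finset.prod_ne_zero_iff.2 (fun i _ => zpow_ne_zero _ (hSz.ne i))
  have himg := Finset.card_le_mul_card_image (s := S)
    (f := fun p : Fin 3 → ℤ => φ (∏ i, γ i ^ (p i))) _ hfib
  have himgR : (S.card : ℝ) ≤ 16 * U ^ 2 *
      ((S.image (fun p : Fin 3 → ℤ => φ (∏ i, γ i ^ (p i)))).card : ℝ) := by
    have h1 : (S.card : ℝ) ≤ (⌊4 * (U + 1) ^ 2⌋₊ : ℝ) *
        ((S.image (fun p : Fin 3 → ℤ => φ (∏ i, γ i ^ (p i)))).card : ℝ) := by exact_mod_cast himg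
    have h2 : (⌊4 * (U + 1) ^ 2⌋₊ : ℝ) ≤ 16 * U ^ 2 := by
      refine (Nat.floor_le (by positivity)).trans ?_
      nlinarith
    refine h1.trans ?_
    gcongr
  have hc'0 : 0 < c' := by linarith
  have hC30 : 0 < C3 := by linarith
  have hC40 : 0 < C4 := by linarith
  have hCC2 : 3456 * C3 * c' ^ 6 ≤ C := by
    calc 3456 * C3 * c' ^ 6 = 3456 * (C3 * 1) * c' ^ 6 := by ring
      _ ≤ 3456 * (C3 * C4) * c' ^ 6 := by gcongr
      _ ≤ C := hCC
  have hpow : ∀ n : ℕ, n ≤ 6 → c' ^ n ≤ c' ^ 6 := fun n hn => pow_le_pow_right₀ hc'1 hn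
  have hpowl : ∀ n : ℕ, n ≤ 6 → ℓ ^ n ≤ ℓ ^ 6 := fun n hn => pow_le_pow_right₀ hℓ hn
  have hcond1 : C3 * U ^ 2 * ℓ' ^ 6 ≤ S.card := by
    refine le_trans ?_ hScount
    have h1 : C3 * c' ^ 6 ≤ C / 216 := by
      rw [le_div_iff₀ (by norm_num)]
      have : 0 ≤ C3 * c' ^ 6 := by positivity
      nlinarith
    calc C3 * U ^ 2 * ℓ' ^ 6 = U ^ 2 * ℓ ^ 6 * (C3 * c' ^ 6) := by rw [hℓ']; ring
      _ ≤ U ^ 2 * ℓ ^ 6 * (C / 216) := by gcongr
      _ = U ^ 2 * (C * ℓ ^ 6) / 216 := by ring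
  have hcond2 : C3 * ℓ' ^ 2 ≤ (S.image (fun p : Fin 3 → ℤ => φ (∏ i, γ i ^ (p i)))).card := by
    have h1 : U ^ 2 * (C3 * ℓ' ^ 2) * 16 ≤ 16 * U ^ 2 *
        ((S.image (fun p : Fin 3 → ℤ => φ (∏ i, γ i ^ (p i)))).card : ℝ) := by
      refine le_trans ?_ himgR
      refine le_trans ?_ hScount
      have h2 : C3 * c' ^ 2 * ℓ ^ 2 * 3456 ≤ C * ℓ ^ 6 := by
        calc C3 * c' ^ 2 * ℓ ^ 2 * 3456 ≤ C3 * c' ^ 6 * ℓ ^ 6 * 3456 := by
              have := hpow 2 (by norm_num)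
              have := hpowl 2 (by norm_num)
              gcongr
          _ = (3456 * C3 * c' ^ 6) * ℓ ^ 6 := by ring
          _ ≤ C * ℓ ^ 6 := by gcongr
      calc U ^ 2 * (C3 * ℓ' ^ 2) * 16 = U ^ 2 * (C3 * c' ^ 2 * ℓ ^ 2 * 3456) / 216 := by
            rw [hℓ']; ring
        _ ≤ U ^ 2 * (C * ℓ ^ 6) / 216 := by gcongr
    have h3 : 0 < 16 * U ^ 2 := by positivity
    have h4 : 16 * U ^ 2 * (C3 * ℓ' ^ 2) ≤ 16 * U ^ 2 *
        ((S.image (fun p : Fin 3 → ℤ => φ (∏ i, γ i ^ (p i)))).card : ℝ) := by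
      calc 16 * U ^ 2 * (C3 * ℓ' ^ 2) = U ^ 2 * (C3 * ℓ' ^ 2) * 16 := by ring
        _ ≤ _ := h1
    exact le_of_mul_le_mul_left h4 h3
  -- comparison of the final exponents
  have hfinal1 : C3 * U * ℓ' ^ 2 ≤ C * U * ℓ ^ 2 := by
    have h1 : C3 * c' ^ 2 ≤ C := by
      calc C3 * c' ^ 2 ≤ 3456 * C3 * c' ^ 6 := by
            have := hpow 2 (by norm_num)
            have h0 : 0 < C3 * c' ^ 6 := by positivity
            calc C3 * c' ^ 2 ≤ C3 * c' ^ 6 := by gcongr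
              _ ≤ 3456 * C3 * c' ^ 6 := by nlinarith
        _ ≤ C := hCC2
    calc C3 * U * ℓ' ^ 2 = (C3 * c' ^ 2) * (U * ℓ ^ 2) := by rw [hℓ']; ring
      _ ≤ C * (U * ℓ ^ 2) := by gcongr
      _ = C * U * ℓ ^ 2 := by ring
  have hfinal2 : C4 * U * ℓ' ≤ C * U * ℓ ^ 2 := by
    have h1 : C4 * c' ≤ C := by
      calc C4 * c' = 1 * C4 * c' ^ 1 := by ring
        _ ≤ C3 * C4 * c' ^ 6 := by
            have := hpow 1 (by norm_num)
            gcongr
        _ ≤ 3456 * (C3 * C4) * c' ^ 6 := by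
            have h0 : 0 < C3 * C4 * c' ^ 6 := by positivity
            nlinarith
        _ ≤ C := hCC
    calc C4 * U * ℓ' = (C4 * c') * (U * ℓ) := by rw [hℓ']; ring
      _ ≤ C * (U * ℓ) := by gcongr
      _ ≤ C * (U * ℓ ^ 2) := by
          gcongr
          nlinarith
      _ = C * U * ℓ ^ 2 := by ring
  have hex : ∀ t s : ℝ, t ≤ s → Real.exp (-s) ≤ Real.exp (-t) := fun t s h => by
    rw [Real.exp_le_exp]; linarith
  rcases H3 L hD φ γ lam S U ℓ' Z hU1 hℓ'1 hZ (hlZ.trans hℓℓ') hlogU hSz.ne hSz.ex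
    (fun p hp q hq r hr => (hSz.log _).trans (hsum3 p hp q hq r hr))
    (fun p hp q hq r hr τ => (hSz.conj _ τ).trans (Real.exp_le_exp.2 (hsum3 p hp q hq r hr)))
    (fun p hp q hq r hr => by
      obtain ⟨n, hn1, hn2, hn3⟩ := hSz.den (p + (q + r))
      exact ⟨n, hn1, hn2.trans (Real.exp_le_exp.2 (hsum3 p hp q hq r hr)), hn3⟩)
    (fun p hp q hq r hr => hSz.coo _ (hsum3 p hp q hq r hr)) hinj hcond1 hcond2 with hdone | hdeg
  · exact le_trans (hex _ _ hfinal1) hdone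
  · obtain ⟨μ1, μ2, hμ, hμc⟩ := hdeg
    set g : (Fin 3 → ℤ) → ℂ := fun p => μ1 * ((p 1 : ℤ) : ℂ) + μ2 * ((p 2 : ℤ) : ℂ) with hg
    have hbig : ∃ y ∈ S.image g, C4 * U * ℓ' ≤ ((S.filter (fun x => g x = y)).card : ℝ) := by
      by_contra hcon
      push Not at hcon
      have h1 : ∀ a ∈ S.image g, (S.filter (fun x => g x = a)).card ≤ ⌊C4 * U * ℓ'⌋₊ := by
        intro a ha
        exact Nat.le_floor (hcon a ha).le
      have h2 := Finset.card_le_mul_card_image (s := S) (f := g) _ h1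
      have h4 : (S.card : ℝ) ≤ (⌊C4 * U * ℓ'⌋₊ : ℝ) * ((S.image g).card : ℝ) := by exact_mod_cast h2
      have h5 : (⌊C4 * U * ℓ'⌋₊ : ℝ) ≤ C4 * U * ℓ' := Nat.floor_le (by positivity)
      have h6 : (S.card : ℝ) ≤ C4 * U * ℓ' * (C3 * U * ℓ' ^ 3) := by
        refine h4.trans ?_
        gcongr
      have h7 : C4 * U * ℓ' * (C3 * U * ℓ' ^ 3) = U ^ 2 * (C3 * C4 * c' ^ 4 * ℓ ^ 4) := by
        rw [hℓ']; ring
      have h8 : 3456 * (C3 * C4 * c' ^ 4 * ℓ ^ 4) ≤ C * ℓ ^ 6 := by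
        calc 3456 * (C3 * C4 * c' ^ 4 * ℓ ^ 4) ≤ 3456 * (C3 * C4 * c' ^ 6 * ℓ ^ 6) := by
              have := hpow 4 (by norm_num)
              have := hpowl 4 (by norm_num)
              gcongr
          _ = (3456 * (C3 * C4) * c' ^ 6) * ℓ ^ 6 := by ring
          _ ≤ C * ℓ ^ 6 := by gcongr
      have h9 : 0 < C3 * C4 * c' ^ 4 * ℓ ^ 4 := by positivity
      have h10 : U ^ 2 * (C * ℓ ^ 6) / 216 ≤ U ^ 2 * (C3 * C4 * c' ^ 4 * ℓ ^ 4) := by
        rw [← h7]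
        exact hScount.trans h6
      have h11 : 0 < U ^ 2 := by positivity
      have h12 : U ^ 2 * (3456 * (C3 * C4 * c' ^ 4 * ℓ ^ 4)) ≤ U ^ 2 * (C * ℓ ^ 6) := by gcongr
      have h13 : 0 < U ^ 2 * (C3 * C4 * c' ^ 4 * ℓ ^ 4) := by positivity
      linarith
    obtain ⟨y, hy, hyc⟩ := hbig
    have hpos : 0 < ((S.filter (fun x => g x = y)).card : ℝ) := by
      refine lt_of_lt_of_le ?_ hyc
      positivity
    have hne : (S.filter (fun x => g x = y)).Nonempty := by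
      rw [← Finset.card_pos]
      exact_mod_cast hpos
    obtain ⟨p0, hp0⟩ := hne
    obtain ⟨hp0S, hp0y⟩ := Finset.mem_filter.1 hp0
    set T : Finset (Fin 3 → ℤ) := (S.filter (fun x => g x = y)).image (fun x => x - p0) with hT
    have hTcard : T.card = (S.filter (fun x => g x = y)).card :=
      Finset.card_image_of_injective _ (sub_left_injective)
    refine le_trans (hex _ _ hfinal2) ?_
    apply H4 L hD φ γ lam nrm ℓ' U Z hU1 hℓ'1 hZ hlogU (hlZ.trans hℓℓ') hSz T μ1 μ2 hμ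
    · intro p hp
      obtain ⟨x, hx, rfl⟩ := Finset.mem_image.1 hp
      obtain ⟨hxS, -⟩ := Finset.mem_filter.1 hx
      have h4 := (hmem x).1 hxS
      have h5 := (hmem p0).1 hp0S
      have := hsub x p0
      linarith
    · intro p hp
      obtain ⟨x, hx, rfl⟩ := Finset.mem_image.1 hp
      obtain ⟨-, hxy⟩ := Finset.mem_filter.1 hx
      have h6 : g x = g p0 := by rw [hxy, hp0y]
      simp only [hg] at h6
      simp only [Pi.sub_apply, Int.cast_sub]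
      linear_combination h6
    · rw [hTcard]
      exact hyc

end Pool.Helper99.BK
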