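import Pool.Agent.Helper99.BK.Stmts

/-! Module SEP: separating polynomials. -/

set_option autoImplicit false

namespace Pool.Helper99.BK

theorem st_SEP : ST_SEP := by
  classical
  intro S s hs
  -- for every s' ≠ s a polynomial of degree ≤ 1
  have h1 : ∀ s' : Fin 2 → ℂ, s' ≠ s → ∃ P : MvPolynomial (Fin 2) ℂ, P.totalDegree ≤ 1 ∧
      MvPolynomial.eval s P = 1 ∧ MvPolynomial.eval s' P = 0 := by
    intro s' hne
    obtain ⟨i, hi⟩ := Function.ne_iff.mp hne
    have hi' : s i - s' i ≠ 0 := sub_ne_zero.mpr (Ne.symm hi)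
    refine ⟨MvPolynomial.C ((s i - s' i)⁻¹) * (MvPolynomial.X i - MvPolynomial.C (s' i)), ?_, ?_, ?_⟩
    · refine (MvPolynomial.totalDegree_mul _ _).trans ?_
      rw [MvPolynomial.totalDegree_C, zero_add]
      refine (MvPolynomial.totalDegree_sub_C_le _ _).trans ?_
      rw [MvPolynomial.totalDegree_X]
    · simp [inv_mul_cancel₀ hi']
    · simp
  choose! P hP1 hP2 hP3 using h1
  refine ⟨∏ s' ∈ S.erase s, P s', ?_, ?_, ?_⟩
  · refine (MvPolynomial.totalDegree_finsetProd _ _).trans ?_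
    calc ∑ s' ∈ S.erase s, (P s').totalDegree ≤ ∑ _s' ∈ S.erase s, 1 :=
          Finset.sum_le_sum (fun s' h => hP1 s' (Finset.ne_of_mem_erase h))
      _ = (S.erase s).card := by simp
      _ ≤ S.card := Finset.card_le_card (Finset.erase_subset _ _)
  · rw [map_prod]
    exact Finset.prod_eq_one (fun s' h => hP2 s' (Finset.ne_of_mem_erase h))
  · intro s' hs' hne
    rw [map_prod]
    exact Finset.prod_eq_zero (Finset.mem_erase.mpr ⟨hne, hs'⟩) (hP3 s' hne)

end Pool.Helper99.BK
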