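import Pool.Agent.Helper99.BK.Stmts
import Pool.Agent.Helper15.BK.AN2
import Pool.Agent.Helper15.BK.AN7
import Pool.Agent.Helper15.BK.UBC
import Pool.Agent.Helper16.BK.EMB3
import Pool.Agent.Helper16.BK.TRB
import Pool.Agent.Helper16.BK.TRL
import Pool.Agent.Helper20.BK.ZE1
import Pool.Agent.Helper26.BK.CMl
import Pool.Agent.Helper33.BK.GCa
import Pool.Agent.Helper33.BK.RDC
import Pool.Agent.Helper34.BK.THE
import Pool.Agent.Helper35.BK.ZE2
import Pool.Agent.Helper41.BK.NT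
import Pool.Agent.Helper41.BK.ZE2c
import Pool.Agent.Helper42.BK.CAL
import Pool.Agent.Helper42.BK.RT
import Pool.Agent.Helper44.BK.LF
import Pool.Agent.Helper46.BK.M2
import Pool.Agent.Helper50.BK.GCb
import Pool.Agent.Helper52.BK.DV1
import Pool.Agent.Helper52.BK.KER
import Pool.Agent.Helper60.BK.RED
import Pool.Agent.Helper61.BK.AN1
import Pool.Agent.Helper61.BK.CM
import Pool.Agent.Helper63.BK.PH
import Pool.Agent.Helper64.BK.BEZ
import Pool.Agent.Helper64.BK.ZE2a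
import Pool.Agent.Helper68.BK.HALL
import Pool.Agent.Helper7.BK.DISC
import Pool.Agent.Helper7.BK.IDC
import Pool.Agent.Helper72.BK.UB0
import Pool.Agent.Helper77.BK.UBR
import Pool.Agent.Helper79.BK.FLD
import Pool.Agent.Helper79.BK.GRb
import Pool.Agent.Helper81.BK.M3
import Pool.Agent.Helper84.BK.AN9
import Pool.Agent.Helper86.BK.AN3
import Pool.Agent.Helper86.BK.AN4
import Pool.Agent.Helper86.BK.AN5
import Pool.Agent.Helper86.BK.AN6
import Pool.Agent.Helper86.BK.AN8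
import Pool.Agent.Helper86.BK.MINOR
import Pool.Agent.Helper89.BK.GRa
import Pool.Agent.Helper9.BK.AN10
import Pool.Agent.Helper9.BK.MINK
import Pool.Agent.Helper9.BK.PHa
import Pool.Agent.Helper9.BK.TTF
import Pool.Agent.Helper90.BK.DIM
import Pool.Agent.Helper91.BK.CMs
import Pool.Agent.Helper95.BK.DEG
import Pool.Agent.Helper97.BK.DV3
import Pool.Agent.Helper97.BK.TAU
import Pool.Agent.Helper99.BK.AR
import Pool.Agent.Helper99.BK.GC
import Pool.Agent.Helper99.BK.GR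
import Pool.Agent.Helper99.BK.IDF
import Pool.Agent.Helper99.BK.LIOU
import Pool.Agent.Helper99.BK.MAIN
import Pool.Agent.Helper99.BK.SEP

/-! Assembly of the modules of the bound for Mordell curves. -/

set_option autoImplicit false

namespace Pool.Helper99.BK

theorem bk_AN1 : ST_AN1 := _root_.Pool.Helper99.BK.st_AN1
theorem bk_AN2 : ST_AN2 := _root_.Pool.Helper99.BK.st_AN2
theorem bk_AN3 : ST_AN3 := _root_.Pool.Helper99.BK.st_AN3 bk_AN1
theorem bk_AN4 : ST_AN4 := _root_.Pool.Helper99.BK.st_AN4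
theorem bk_AN5 : ST_AN5 := _root_.Pool.Helper99.BK.st_AN5
theorem bk_AN6 : ST_AN6 := _root_.Pool.Helper99.BK.st_AN6
theorem bk_AN9 : ST_AN9 := _root_.Pool.Helper99.BK.st_AN9 bk_AN2 bk_AN3 bk_AN4 bk_AN5 bk_AN6
theorem bk_AN10 : ST_AN10 := _root_.Pool.Helper99.BK.st_AN10 bk_AN9
theorem bk_AN7 : ST_AN7 := _root_.Pool.Helper99.BK.st_AN7 bk_AN2 bk_AN3 bk_AN4 bk_AN5 bk_AN6
theorem bk_AN8 : ST_AN8 := _root_.Pool.Helper99.BK.st_AN8 bk_AN7
theorem bk_LIOU : ST_LIOU := _root_.Pool.Helper99.BK.st_LIOU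
theorem bk_AR : ST_AR := _root_.Pool.Helper99.BK.st_AR bk_LIOU
theorem bk_DIM : ST_DIM := _root_.Pool.Helper99.BK.st_DIM
theorem bk_SEP : ST_SEP := _root_.Pool.Helper99.BK.st_SEP
theorem bk_BEZ : ST_BEZ := _root_.Pool.Helper99.BK.st_BEZ bk_DIM bk_SEP
theorem bk_CAL : ST_CAL := _root_.Pool.Helper99.BK.st_CAL
theorem bk_MINOR : ST_MINOR := _root_.Pool.Helper99.BK.st_MINOR
theorem bk_ZE2a : ST_ZE2a := _root_.Pool.Helper99.BK.st_ZE2a bk_MINOR
theorem bk_TRB : ST_TRB := _root_.Pool.Helper99.BK.st_TRB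
theorem bk_TRL : ST_TRL := _root_.Pool.Helper99.BK.st_TRL bk_TRB
theorem bk_ZE2c : ST_ZE2c := _root_.Pool.Helper99.BK.st_ZE2c bk_BEZ bk_TRB bk_TRL
theorem bk_ZE2 : ST_ZE2 := _root_.Pool.Helper99.BK.st_ZE2 bk_ZE2a bk_ZE2c
theorem bk_M3 : ST_M3 := _root_.Pool.Helper99.BK.st_M3 bk_ZE2 bk_MINOR bk_AR bk_AN8
theorem bk_ZE1 : ST_ZE1 := _root_.Pool.Helper99.BK.st_ZE1 bk_MINOR
theorem bk_M2 : ST_M2 := _root_.Pool.Helper99.BK.st_M2 bk_ZE1 bk_MINOR bk_AR bk_AN10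
theorem bk_DEG : ST_DEG := _root_.Pool.Helper99.BK.st_DEG bk_M2
theorem bk_MAIN : ST_MAIN := _root_.Pool.Helper99.BK.st_MAIN bk_M3 bk_DEG
theorem bk_LF : ST_LF := _root_.Pool.Helper99.BK.st_LF
theorem bk_EMB3 : ST_EMB3 := _root_.Pool.Helper99.BK.st_EMB3
theorem bk_CMl : ST_CMl := _root_.Pool.Helper99.BK.st_CMl bk_LF bk_LIOU bk_EMB3
theorem bk_CMs : ST_CMs := _root_.Pool.Helper99.BK.st_CMs bk_LF bk_LIOU
theorem bk_CM : ST_CM := _root_.Pool.Helper99.BK.st_CM bk_MAIN bk_CMl bk_CMs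
theorem bk_DISC : ST_DISC := _root_.Pool.Helper99.BK.st_DISC
theorem bk_DV1 : ST_DV1 := _root_.Pool.Helper99.BK.st_DV1
theorem bk_DV3 : ST_DV3 := _root_.Pool.Helper99.BK.st_DV3
theorem bk_FLD : ST_FLD := _root_.Pool.Helper99.BK.st_FLD
theorem bk_UB0 : ST_UB0 := _root_.Pool.Helper72.BK.st_UB0
theorem bk_UBC : ST_UBC := _root_.Pool.Helper99.BK.st_UBC bk_UB0
theorem bk_KER : ST_KER := _root_.Pool.Helper99.BK.st_KER
theorem bk_GCa : ST_GCa := _root_.Pool.Helper99.BK.st_GCa bk_KER bk_EMB3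
theorem bk_MINK : ST_MINK := _root_.Pool.Helper99.BK.st_MINK
theorem bk_PHa : ST_PHa := _root_.Pool.Helper99.BK.st_PHa bk_MINK
theorem bk_IDF : ST_IDF := _root_.Pool.Helper99.BK.st_IDF
theorem bk_TTF : ST_TTF := _root_.Pool.Helper99.BK.st_TTF
theorem bk_PH : ST_PH := _root_.Pool.Helper99.BK.st_PH bk_PHa bk_IDF bk_TTF
theorem bk_GCb : ST_GCb := _root_.Pool.Helper99.BK.st_GCb bk_PH bk_TTF bk_EMB3
theorem bk_GC : ST_GC := _root_.Pool.Helper99.BK.st_GC bk_UBC bk_EMB3 bk_GCa bk_GCb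
theorem bk_UBR : ST_UBR := _root_.Pool.Helper99.BK.st_UBR bk_UB0
theorem bk_GRa : ST_GRa := _root_.Pool.Helper99.BK.st_GRa bk_KER bk_EMB3
theorem bk_GRb : ST_GRb := _root_.Pool.Helper99.BK.st_GRb bk_PH bk_GRa
theorem bk_GR : ST_GR := _root_.Pool.Helper99.BK.st_GR bk_UBR bk_EMB3 bk_GRa bk_GRb
theorem bk_THE : ST_THE := _root_.Pool.Helper99.BK.st_THE
theorem bk_NT : ST_NT := _root_.Pool.Helper99.BK.st_NT bk_THE bk_GR bk_GC bk_CM
theorem bk_TAU : ST_TAU := _root_.Pool.Helper99.BK.st_TAU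
theorem bk_IDC : ST_IDC := _root_.Pool.Helper99.BK.st_IDC bk_DV3 bk_TAU
theorem bk_RT : ST_RT := _root_.Pool.Helper99.BK.st_RT
theorem bk_RED : ST_RED := _root_.Pool.Helper99.BK.st_RED
theorem bk_RDC : ST_RDC := _root_.Pool.Helper99.BK.st_RDC
theorem bk_HALL : ST_HALL := _root_.Pool.Helper99.BK.st_HALL bk_NT bk_IDC bk_DISC bk_FLD bk_RT bk_RED bk_RDC bk_CAL bk_EMB3 bk_KER

end Pool.Helper99.BK
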