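import Pool.Agent.Helper99.BK.Stmts

/-! The second form of the bound. -/

set_option autoImplicit false

namespace Pool.Helper99.BK

theorem fin_second (h : ST_HALL) : ∃ c : ℝ, 0 < c ∧ ∀ x y : ℤ, y ^ 2 ≠ x ^ 3 →
    c * Real.log |(x : ℝ)| ^ 2 / (1 + Real.log (1 + Real.log |(x : ℝ)|)) ^ 38 ≤
      |((y ^ 2 - x ^ 3 : ℤ) : ℝ)| := by
  obtain ⟨C0, hC0⟩ := h
  set C : ℝ := max C0 1 with hC
  have hC1 : 1 ≤ C := le_max_right _ _
  have hCC : 1 ≤ C ^ 2 * 4 ^ 19 := by
    have h1 : 1 ≤ C ^ 2 := one_le_pow₀ hC1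
    have h2 : (1 : ℝ) ≤ 4 ^ 19 := by norm_num
    exact one_le_mul_of_one_le_of_one_le h1 h2
  refine ⟨1 / (C ^ 2 * 4 ^ 19), by positivity, ?_⟩
  intro x y hxy
  set d : ℤ := y ^ 2 - x ^ 3 with hd
  have hd0 : d ≠ 0 := sub_ne_zero.mpr hxy
  have h1 := hC0 d x y hd0 (by rw [hd]; ring)
  set D : ℝ := |(d : ℝ)| with hD
  have hD1 : 1 ≤ D := by
    have h2 : (1 : ℝ) ≤ |(d : ℝ)| := by exact_mod_cast Int.one_le_abs hd0
    exact h2
  set L : ℝ := Real.log |(x : ℝ)| with hL
  have hL0 : 0 ≤ L := by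
    by_cases hx : x = 0
    · rw [hL, hx]; simp
    · exact Real.log_nonneg (by exact_mod_cast Int.one_le_abs hx)
  set M : ℝ := 1 + Real.log (1 + L) with hM
  have hM1 : 1 ≤ M := by
    have h3 : 0 ≤ Real.log (1 + L) := Real.log_nonneg (by linarith)
    linarith
  have hM38 : 1 ≤ M ^ 38 := one_le_pow₀ hM1
  have hlogD : 0 ≤ Real.log D := Real.log_nonneg hD1
  rw [div_le_iff₀ (by positivity)]
  by_cases hc : L ^ 2 ≤ D
  · calc 1 / (C ^ 2 * 4 ^ 19) * L ^ 2 ≤ 1 * L ^ 2 := by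
          apply mul_le_mul_of_nonneg_right _ (by positivity)
          rw [div_le_one (by positivity)]
          exact hCC
      _ ≤ D * 1 := by linarith
      _ ≤ D * M ^ 38 := by
          apply mul_le_mul_of_nonneg_left hM38 (by linarith)
  · have hc' : D < L ^ 2 := lt_of_not_ge hc
    have hLpos : 0 < L := by
      rcases hL0.lt_or_eq with h4 | h4
      · exact h4
      · rw [← h4] at hc'
        norm_num at hc'
        linarith
    have h5 : Real.log D ≤ 2 * Real.log (1 + L) := by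
      have h6 : Real.log D ≤ Real.log ((1 + L) ^ 2) := by
        apply Real.log_le_log (by linarith)
        nlinarith
      rw [Real.log_pow] at h6
      exact_mod_cast h6
    have h7 : 1 + Real.log D ≤ 2 * M := by
      have h8 : 0 ≤ Real.log (1 + L) := Real.log_nonneg (by linarith)
      rw [hM]
      linarith
    have h9 : L ≤ C * Real.sqrt D * (2 * M) ^ 19 := by
      calc L ≤ C0 * Real.sqrt D * (1 + Real.log D) ^ 19 := h1
        _ ≤ C * Real.sqrt D * (1 + Real.log D) ^ 19 := by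
            apply mul_le_mul_of_nonneg_right _ (by positivity)
            exact mul_le_mul_of_nonneg_right (le_max_left _ _) (Real.sqrt_nonneg _)
        _ ≤ C * Real.sqrt D * (2 * M) ^ 19 := by
            apply mul_le_mul_of_nonneg_left _ (by positivity)
            exact pow_le_pow_left₀ (by linarith) h7 _
    have h10 : L ^ 2 ≤ (C * Real.sqrt D * (2 * M) ^ 19) ^ 2 := pow_le_pow_left₀ hL0 h9 2
    have h11 : (C * Real.sqrt D * (2 * M) ^ 19) ^ 2 = C ^ 2 * 4 ^ 19 * (D * M ^ 38) := by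
      have h12 : Real.sqrt D ^ 2 = D := Real.sq_sqrt (by linarith)
      calc (C * Real.sqrt D * (2 * M) ^ 19) ^ 2
          = C ^ 2 * Real.sqrt D ^ 2 * (4 ^ 19 * M ^ 38) := by ring
        _ = C ^ 2 * 4 ^ 19 * (D * M ^ 38) := by rw [h12]; ring
    rw [h11] at h10
    rw [one_div, inv_mul_le_iff₀ (by positivity)]
    exact h10

end Pool.Helper99.BK
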