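import Pool.Agent.Helper99.BK.Stmts

/-! Module GR: the linear form of a totally real cubic field. -/

set_option autoImplicit false

namespace Pool.Helper99.BK

open NumberField

theorem gr_unit_ne {K : Type} [Field K] [NumberField K] (σ : K →+* ℂ) (u : (𝓞 K)ˣ) :
    σ ((u : 𝓞 K) : K) ≠ 0 := by
  have h1 : ((u : 𝓞 K) : K) ≠ 0 := by
    have h2 : (u : 𝓞 K) ≠ 0 := u.ne_zero
    intro h3
    exact h2 (by exact_mod_cast h3)
  exact (map_ne_zero σ).mpr h1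

theorem gr_pi_ne {K : Type} [Field K] [NumberField K] (σ : K →+* ℂ) (π : 𝓞 K) (h : π ≠ 0) :
    σ (π : K) ≠ 0 := by
  have h1 : (π : K) ≠ 0 := by
    intro h3
    exact h (by exact_mod_cast h3)
  exact (map_ne_zero σ).mpr h1

theorem gr_log_gel {K : Type} [Field K] [NumberField K] (σ : K →+* ℂ) (π : 𝓞 K) (h : π ≠ 0)
    (ε1 ε2 : (𝓞 K)ˣ) (p : Fin 3 → ℤ) :
    Real.log ‖σ (gel π ε1 ε2 p)‖ = (p 0 : ℝ) * Real.log ‖σ (π : K)‖ +
      (p 1 : ℝ) * Real.log ‖σ ((ε1 : 𝓞 K) : K)‖ + (p 2 : ℝ) * Real.log ‖σ ((ε2 : 𝓞 K) : K)‖ := by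
  have h0 := gr_pi_ne σ π h
  have h1 := gr_unit_ne σ ε1
  have h2 := gr_unit_ne σ ε2
  unfold gel
  rw [map_mul, map_mul, map_zpow₀, map_zpow₀, map_zpow₀, norm_mul, norm_mul, norm_zpow, norm_zpow,
    norm_zpow, Real.log_mul, Real.log_mul, Real.log_zpow, Real.log_zpow, Real.log_zpow]
  · exact zpow_ne_zero _ (norm_ne_zero_iff.mpr h0)
  · exact zpow_ne_zero _ (norm_ne_zero_iff.mpr h1)
  · exact mul_ne_zero (zpow_ne_zero _ (norm_ne_zero_iff.mpr h0))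
      (zpow_ne_zero _ (norm_ne_zero_iff.mpr h1))
  · exact zpow_ne_zero _ (norm_ne_zero_iff.mpr h2)

theorem gr_exp (x : ℂ) (hx : x ≠ 0) (him : x.im = 0) :
    Complex.exp ((2 * Real.log ‖x‖ : ℝ) : ℂ) = x ^ 2 := by
  obtain ⟨r, rfl⟩ : ∃ r : ℝ, x = (r : ℂ) := ⟨x.re, by
    apply Complex.ext
    · simp
    · simpa using him⟩
  have hr : r ≠ 0 := by
    intro h
    apply hx
    rw [h]
    simp
  rw [← Complex.ofReal_exp, Complex.norm_real, Real.norm_eq_abs]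
  have h1 : Real.exp (2 * Real.log |r|) = r ^ 2 := by
    rw [two_mul, Real.exp_add, Real.exp_log (abs_pos.mpr hr)]
    rw [← sq, sq_abs]
  rw [h1]
  push_cast
  rfl

theorem gr_im_div (x y : ℂ) (hx : x.im = 0) (hy : y.im = 0) : (x / y).im = 0 := by
  rw [← Complex.conj_eq_iff_im] at hx hy ⊢
  rw [map_div₀, hx, hy]

theorem gr_im_mul (x y : ℂ) (hx : x.im = 0) (hy : y.im = 0) : (x * y).im = 0 := by
  rw [← Complex.conj_eq_iff_im] at hx hy ⊢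
  rw [map_mul, hx, hy]

theorem gr_nrm_nonneg {K : Type} [Field K] [NumberField K] (σ : Fin 3 → (K →+* ℂ)) (π : 𝓞 K)
    (ε1 ε2 : (𝓞 K)ˣ) (A : ℝ) (hA : 0 ≤ A) (lam : Fin 3 → ℂ) (p : Fin 3 → ℤ) :
    0 ≤ nrm σ π ε1 ε2 A lam p := by
  unfold nrm
  have h1 : 0 ≤ ∑ i, |Real.log ‖σ i (gel π ε1 ε2 p)‖| := Finset.sum_nonneg (fun i _ => abs_nonneg _)
  have h2 : 0 ≤ A * |(p 0 : ℝ)| := mul_nonneg hA (abs_nonneg _)
  have h3 := norm_nonneg (∑ i, ((p i : ℤ) : ℂ) * lam i)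
  linarith

theorem st_GR (h1 : ST_UBR) (h2 : ST_EMB3) (h3 : ST_GRa) (h4 : ST_GRb) : ST_GR := by
  obtain ⟨c, hc, hUBR⟩ := h1
  obtain ⟨c0, C3a, hc0, hC3a, hGRa⟩ := h3 c hc
  obtain ⟨C3b, hC3b, hGRb⟩ := h4 c hc
  refine ⟨c0, max C3a C3b, hc0, hC3a.trans (le_max_left _ _), ?_⟩
  intro K _ _ hK σ hσ hreal π hπ θ A h S ν hθ hθim hθA hh hdisc hA hN hS hν
  have hcard : Fintype.card (InfinitePlace K) = 3 := (h2 K hK σ hσ).2.2.1 hreal
  obtain ⟨ε1, ε2, hUR⟩ := hUBR K hK hcard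
  set x0 : ℂ := θ * (σ 1 (π : K) / σ 2 (π : K)) with hx0
  set x1 : ℂ := σ 1 ((ε1 : 𝓞 K) : K) / σ 2 ((ε1 : 𝓞 K) : K) with hx1
  set x2 : ℂ := σ 1 ((ε2 : 𝓞 K) : K) / σ 2 ((ε2 : 𝓞 K) : K) with hx2
  have hp1 := gr_pi_ne (σ 1) π hπ
  have hp2 := gr_pi_ne (σ 2) π hπ
  have he11 := gr_unit_ne (σ 1) ε1
  have he12 := gr_unit_ne (σ 2) ε1
  have he21 := gr_unit_ne (σ 1) ε2
  have he22 := gr_unit_ne (σ 2) ε2
  have n0 : x0 ≠ 0 := mul_ne_zero hθ (div_ne_zero hp1 hp2)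
  have n1 : x1 ≠ 0 := div_ne_zero he11 he12
  have n2 : x2 ≠ 0 := div_ne_zero he21 he22
  have i0 : x0.im = 0 := gr_im_mul _ _ hθim (gr_im_div _ _ (hreal _ _) (hreal _ _))
  have i1 : x1.im = 0 := gr_im_div _ _ (hreal _ _) (hreal _ _)
  have i2 : x2.im = 0 := gr_im_div _ _ (hreal _ _) (hreal _ _)
  set lam : Fin 3 → ℂ := ![((2 * Real.log ‖x0‖ : ℝ) : ℂ), ((2 * Real.log ‖x1‖ : ℝ) : ℂ),
    ((2 * Real.log ‖x2‖ : ℝ) : ℂ)] with hlam
  have l0 : lam 0 = ((2 * Real.log ‖x0‖ : ℝ) : ℂ) := rfl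
  have l1 : lam 1 = ((2 * Real.log ‖x1‖ : ℝ) : ℂ) := rfl
  have l2 : lam 2 = ((2 * Real.log ‖x2‖ : ℝ) : ℂ) := rfl
  have hS0 : 0 ≤ S := (abs_nonneg _).trans (hS 0)
  have hν0 : 0 ≤ ν := (Nat.cast_nonneg _).trans hν
  have hA0 : 0 ≤ A := by linarith
  obtain ⟨g1, g2, g3⟩ := hGRa K hK σ hσ π hπ ε1 ε2 hUR θ lam A S hθ hA hS
  refine ⟨ε1, ε2, lam, ?_, ?_⟩
  · rw [l0, Complex.norm_real, Real.norm_eq_abs, abs_mul, abs_two]
  · refine ⟨?_, ?_, ?_, g1, ?_, ?_, g3⟩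
    · rw [l0]; exact gr_exp x0 n0 i0
    · rw [l1]; exact gr_exp x1 n1 i1
    · rw [l2]; exact gr_exp x2 n2 i2
    · intro p i
      refine (g2 p i).trans ?_
      apply mul_le_mul_of_nonneg_right _ (gr_nrm_nonneg σ π ε1 ε2 A hA0 lam p)
      apply mul_le_mul_of_nonneg_right (le_max_left _ _) (by linarith)
    · intro ρ hρ
      have hAh : 0 ≤ A + h := by linarith
      have hρ' : C3b * (A + h) ≤ ρ :=
        (mul_le_mul_of_nonneg_right (le_max_right _ _) hAh).trans hρ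
      have hyp : ∀ p : Fin 3 → ℤ, ‖∑ i, ((p i : ℤ) : ℂ) * lam i‖ ≤ A * |(p 0 : ℝ)| +
          2 * |Real.log ‖σ 1 (gel π ε1 ε2 p)‖| + 2 * |Real.log ‖σ 2 (gel π ε1 ε2 p)‖| := by
        intro p
        have e1 : ∑ i, ((p i : ℤ) : ℂ) * lam i =
            ((2 * ((p 0 : ℝ) * Real.log ‖θ‖ + Real.log ‖σ 1 (gel π ε1 ε2 p)‖ -
              Real.log ‖σ 2 (gel π ε1 ε2 p)‖) : ℝ) : ℂ) := by
          rw [gr_log_gel (σ 1) π hπ, gr_log_gel (σ 2) π hπ, Fin.sum_univ_three, l0, l1, l2, hx0, hx1,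
            hx2, norm_mul, norm_div, norm_div, norm_div, Real.log_mul, Real.log_div, Real.log_div,
            Real.log_div]
          · push_cast
            ring
          all_goals first
            | exact norm_ne_zero_iff.mpr he11
            | exact norm_ne_zero_iff.mpr he12
            | exact norm_ne_zero_iff.mpr he21
            | exact norm_ne_zero_iff.mpr he22
            | exact norm_ne_zero_iff.mpr hp1
            | exact norm_ne_zero_iff.mpr hp2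
            | exact norm_ne_zero_iff.mpr hθ
            | exact div_ne_zero (norm_ne_zero_iff.mpr hp1) (norm_ne_zero_iff.mpr hp2)
        rw [e1, Complex.norm_real, Real.norm_eq_abs, abs_mul, abs_two]
        have e2 : |(p 0 : ℝ) * Real.log ‖θ‖ + Real.log ‖σ 1 (gel π ε1 ε2 p)‖ -
            Real.log ‖σ 2 (gel π ε1 ε2 p)‖| ≤ |(p 0 : ℝ)| * |Real.log ‖θ‖| +
            |Real.log ‖σ 1 (gel π ε1 ε2 p)‖| + |Real.log ‖σ 2 (gel π ε1 ε2 p)‖| := by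
          rw [← abs_mul]
          refine (abs_sub _ _).trans ?_
          gcongr
          exact abs_add_le _ _
        have e3 : |(p 0 : ℝ)| * |Real.log ‖θ‖| ≤ |(p 0 : ℝ)| * (A / 2) :=
          mul_le_mul_of_nonneg_left hθA (abs_nonneg _)
        linarith
      refine (hGRb K hK hcard σ hσ π hπ ε1 ε2 hUR lam A h ν hh hdisc hA hN hν hyp ρ hρ').trans ?_
      apply mul_le_mul_of_nonneg_right _ (Nat.cast_nonneg _)
      apply mul_le_mul_of_nonneg_right _ (by positivity)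
      apply mul_le_mul_of_nonneg_right _ hA0
      exact mul_le_mul_of_nonneg_right (le_max_right _ _) hν0

end Pool.Helper99.BK
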